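import Mathlib
import Pool.Agent.H710R2.FF.Defs

set_option autoImplicit false
set_option linter.unusedSectionVars false

open MeasureTheory
open scoped ComplexConjugate InnerProductSpace

noncomputable section

namespace Pool.Agent.H710R2.GP

open Pool.Agent.H710R2.FF
open Pool.Agent.Helper278 Pool.Agent.Helper436.SN

/-- noncommutative polynomials in `n` variables -/
abbrev NP (n : ℕ) : Type := FreeAlgebra ℂ (Fin n)

/-- evaluation of a noncommutative polynomial -/
def evA {A : Type} [Ring A] [Algebra ℂ A] {n : ℕ} (x : Fin n → A) : NP n →ₐ[ℂ] A :=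
  FreeAlgebra.lift ℂ x

/-- `k + 1`-tuples of Hermitian contractions of size `N` -/
def HC (N k : ℕ) : Set (Fin (k + 1) → Mt N) := {A | ∀ i, (A i).IsHermitian ∧ opn (A i) ≤ 1}

/-- On Hermitian contractions of all sizes, changing the variables other than the first one by at
most `δ` in the normalised Hilbert–Schmidt norm changes `P` by at most `ρ` in that norm. -/
def Modu {k : ℕ} (P : NP (k + 1)) (δ ρ : ℝ) : Prop :=
  ∀ N : ℕ, ∀ A ∈ HC N k, ∀ B ∈ HC N k, A 0 = B 0 → (∀ i, hs2 (A i - B i) ≤ δ ^ 2) →
    hs2 (evA A P - evA B P) ≤ ρ ^ 2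

/-- imaginary part of the Cayley transform -/
def imc {A : Type} [Ring A] [StarRing A] [Module ℂ A] (x : A) : A :=
  (-(Complex.I) / 2 : ℂ) • (cay x - star (cay x))

/-- the left regular representation extended to the group algebra -/
def lamG (G : Type) [Group G] : MonoidAlgebra ℂ G →ₐ[ℂ] (EllTwo G →L[ℂ] EllTwo G) :=
  MonoidAlgebra.lift ℂ _ G
    { toFun := fun g => leftReg G g
      map_one' := by
        ext f h
        show f ((1 : G)⁻¹ * h) = f h
        rw [inv_one, one_mul]
      map_mul' := fun g g' => by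
        ext f h
        show f ((g * g')⁻¹ * h) = f (g'⁻¹ * (g⁻¹ * h))
        rw [mul_inv_rev, mul_assoc] }

/-- the adjoint in the group algebra -/
def fstG {G : Type} [Group G] (b : MonoidAlgebra ℂ G) : MonoidAlgebra ℂ G :=
  b.coeff.sum fun g c => MonoidAlgebra.single g⁻¹ (conj c)

/-- the extension of functions by zero along an injective homomorphism, on group algebras: the
homomorphism of group algebras induced by a homomorphism of free groups -/
def mapF {κ ι : Type} (s : κ → ι) :
    MonoidAlgebra ℂ (FreeGroup κ) →ₐ[ℂ] MonoidAlgebra ℂ (FreeGroup ι) :=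
  MonoidAlgebra.mapDomainAlgHom ℂ ℂ (FreeGroup.map s)

end Pool.Agent.H710R2.GP
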