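import Mathlib
import Pool.Agent.H710R2.FF.Stubs
import Pool.Agent.H710R2.GP.Defs

set_option autoImplicit false
set_option linter.unusedSectionVars false

open MeasureTheory
open scoped ComplexConjugate InnerProductSpace

noncomputable section

namespace Pool.Agent.H710R2.GP

open Pool.Agent.H710R2.FF
open Pool.Agent.Helper278 Pool.Agent.Helper436.SN

/-! ### NET: nets of matrices -/

theorem net_U : ∃ C : ℝ, 1 ≤ C ∧ ∀ N : ℕ, 0 < N → ∀ r : ℝ, 0 < r → r ≤ 1 →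
    ∃ (K : ℕ) (c : UN N → Fin K), (K : ℝ) ≤ (C / r) ^ (N ^ 2) ∧
      ∀ U U' : UN N, c U = c U' → hs2 ((U : Mt N) - (U' : Mt N)) ≤ r ^ 2 := sorry

theorem net_H : ∃ C : ℝ, 1 ≤ C ∧ ∀ N : ℕ, 0 < N → ∀ r : ℝ, 0 < r → r ≤ 1 →
    ∃ (K : ℕ) (c : Mt N → Fin K), (K : ℝ) ≤ (C / r) ^ (N ^ 2) ∧
      ∀ A B : Mt N, A.IsHermitian → B.IsHermitian → opn A ≤ 1 → opn B ≤ 1 → c A = c B →
        hs2 (A - B) ≤ r ^ 2 := sorry

theorem net_D (δ : ℝ) (hδ : 0 < δ) : ∃ C : ℝ, 1 ≤ C ∧ ∀ N : ℕ,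
    ∃ (K : ℕ) (c : (Fin N → ℝ) → Fin K), (K : ℝ) ≤ C ^ N ∧
      ∀ d d' : Fin N → ℝ, (∀ i, |d i| ≤ 1) → (∀ i, |d' i| ≤ 1) → c d = c d' →
        ∀ i, |d i - d' i| ≤ δ := sorry

/-! ### VOL: the volume inequality -/

theorem vol_ineq {k m M N : ℕ} (hN : 0 < N) (e : Fin m → Fin M) (he : Function.Injective e)
    (A : (Fin M → UN N) → Fin (k + 1) → Mt N) (hA : ∀ V, A V ∈ HC N k)
    (P : Fin m → NP (k + 1)) (ρ δ δ' R : ℝ) (hρ : 0 < ρ) (hδ : 0 < δ) (hδ' : 0 < δ') (hR : ρ ≤ R)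
    (hmod : ∀ j, Modu (P j) δ ρ)
    (hmod' : ∀ j, ∀ A ∈ HC N k, ∀ B ∈ HC N k, (∀ i, i ≠ 0 → A i = B i) →
      opn (A 0 - B 0) ≤ δ' → opn (evA A (P j) - evA B (P j)) ≤ ρ)
    (hcl : (1 / 2 : ℝ) ≤ (PP (Fin M) N).real
      {V | ∀ j, hs2 ((V (e j) : Mt N) - evA (A V) (P j)) ≤ R ^ 2})
    (KD KH KW : ℕ) (cD : (Fin N → ℝ) → Fin KD) (cH : Mt N → Fin KH) (cW : UN N → Fin KW)
    (hcD : ∀ d d' : Fin N → ℝ, (∀ i, |d i| ≤ 1) → (∀ i, |d' i| ≤ 1) → cD d = cD d' →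
        ∀ i, |d i - d' i| ≤ δ')
    (hcH : ∀ A B : Mt N, A.IsHermitian → B.IsHermitian → opn A ≤ 1 → opn B ≤ 1 → cH A = cH B →
        hs2 (A - B) ≤ δ ^ 2)
    (hcW : ∀ U U' : UN N, cW U = cW U' → hs2 ((U : Mt N) - (U' : Mt N)) ≤ R ^ 2)
    (B : ℝ) (hB : ∀ X : Mt N, (mu N).real {U | hs2 ((U : Mt N) - X) ≤ (6 * R) ^ 2} ≤ B) :
    (1 / 2 : ℝ) ≤ (KD : ℝ) * (KH : ℝ) ^ k * (KW : ℝ) * B ^ m := sorry

/-! ### MOM: moments of Haar unitaries -/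

theorem mom {M : ℕ} (f : FA M) : ∃ C : ℝ, 0 ≤ C ∧ ∀ N : ℕ, 0 < N →
    ‖(∫ V, ntr (evV V f) ∂(PP (Fin M) N)) - tau f‖ ≤ C / N := sorry

/-! ### LIP: noncommutative polynomials are Lipschitz -/

theorem lip_opn {n : ℕ} (P : NP n) : ∃ C : ℝ, 0 ≤ C ∧ ∀ (N : ℕ) (A B : Fin n → Mt N) (ε : ℝ),
    0 ≤ ε → (∀ i, opn (A i) ≤ 2) → (∀ i, opn (B i) ≤ 2) → (∀ i, opn (A i - B i) ≤ ε) →
    opn (evA A P - evA B P) ≤ C * ε := sorry

theorem lip_norm {n : ℕ} (P : NP n) : ∃ C : ℝ, 0 ≤ C ∧ ∀ (A : Type) [NormedRing A]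
    [NormedAlgebra ℂ A] [NormOneClass A] (x y : Fin n → A) (ε : ℝ),
    0 ≤ ε → (∀ i, ‖x i‖ ≤ 2) → (∀ i, ‖y i‖ ≤ 2) → (∀ i, ‖x i - y i‖ ≤ ε) →
    ‖evA x P - evA y P‖ ≤ C * ε := sorry

theorem evA_mem_RC {G : Type} [Group G] {n : ℕ} (P : NP n)
    (x : Fin n → EllTwo G →L[ℂ] EllTwo G) (hx : ∀ i, x i ∈ RC G) : evA x P ∈ RC G := sorry

theorem lip_n2 {n : ℕ} (P : NP n) : ∃ C : ℝ, 0 ≤ C ∧ ∀ (G : Type) [Group G]
    (x y : Fin n → EllTwo G →L[ℂ] EllTwo G) (ε : ℝ), 0 ≤ ε → (∀ i, x i ∈ RC G) →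
    (∀ i, y i ∈ RC G) → (∀ i, ‖x i‖ ≤ 2) → (∀ i, ‖y i‖ ≤ 2) → (∀ i, n2 (x i - y i) ≤ ε) →
    n2 (evA x P - evA y P) ≤ C * ε := sorry

/-! ### SAC: self-adjoint contractions are imaginary parts of Cayley transforms -/

theorem exists_imc {G : Type} [Group G] (a : EllTwo G →L[ℂ] EllTwo G) (ha : a ∈ RC G)
    (hs : IsSelfAdjoint a) (hn : ‖a‖ ≤ 1) :
    ∃ y : EllTwo G →L[ℂ] EllTwo G, y ∈ RC G ∧ IsSelfAdjoint y ∧ ‖y‖ ≤ 1 ∧ imc y = a := sorry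

theorem imc_props {G : Type} [Group G] (y : EllTwo G →L[ℂ] EllTwo G) (hy : y ∈ RC G)
    (hs : IsSelfAdjoint y) : imc y ∈ RC G ∧ IsSelfAdjoint (imc y) ∧ ‖imc y‖ ≤ 1 := sorry

theorem imc_lip {G : Type} [Group G] (x y : EllTwo G →L[ℂ] EllTwo G) (hx : x ∈ RC G)
    (hy : y ∈ RC G) (hxs : IsSelfAdjoint x) (hys : IsSelfAdjoint y) :
    n2 (imc x - imc y) ≤ 2 * n2 (x - y) := sorry

theorem imc_matrix {N : ℕ} (x : Mt N) (hx : x.IsHermitian) :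
    (imc x).IsHermitian ∧ opn (imc x) ≤ 1 := sorry

theorem continuous_imc {M N : ℕ} (q : FA M) (hq : fst' q = q) :
    Continuous fun V : Fin M → UN N => imc (evV V q) := sorry

/-! ### OPR: approximation by group algebra elements -/

theorem lamG_mem {G : Type} [Group G] (b : MonoidAlgebra ℂ G) : lamG G b ∈ RC G := sorry

theorem lamG_star {G : Type} [Group G] (b : MonoidAlgebra ℂ G) :
    lamG G (fstG b) = star (lamG G b) := sorry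

theorem approx_G {G : Type} [Group G] {k m : ℕ} (a : Fin (k + 1) → EllTwo G →L[ℂ] EllTwo G)
    (ha : ∀ i, a i ∈ RC G) (hs : ∀ i, IsSelfAdjoint (a i)) (hn : ∀ i, ‖a i‖ ≤ 1)
    (P : Fin m → NP (k + 1)) (η : ℝ) (hη : 0 < η) :
    ∃ q : Fin (k + 1) → MonoidAlgebra ℂ G, (∀ i, fstG (q i) = q i) ∧
      ∀ j, n2 (evA (fun i => imc (lamG G (q i))) (P j) - evA a (P j)) ≤ η := sorry

/-! ### RED: reduction to finitely many free generators -/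

theorem exists_finite {ι : Type} {k m : ℕ} (e : Fin m → ι) (he : Function.Injective e)
    (q : Fin (k + 1) → MonoidAlgebra ℂ (FreeGroup ι)) :
    ∃ (M : ℕ) (s : Fin M → ι) (e' : Fin m → Fin M) (q' : Fin (k + 1) → FA M),
      Function.Injective s ∧ (∀ j, s (e' j) = e j) ∧ ∀ i, mapF s (q' i) = q i := sorry

theorem mapF_fst {ι : Type} {M : ℕ} (s : Fin M → ι) (hs : Function.Injective s) (q : FA M)
    (hq : fstG (mapF s q) = mapF s q) : fst' q = q := sorry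

theorem n2_mapF {ι : Type} {k M : ℕ} (s : Fin M → ι) (hs : Function.Injective s)
    (q : Fin (k + 1) → FA M) (hq : ∀ i, fst' (q i) = q i) (P : NP (k + 1)) (j : Fin M) :
    n2 (leftReg (FreeGroup (Fin M)) (FreeGroup.of j) -
        evA (fun i => imc (lamA M (q i))) P) =
      n2 (leftReg (FreeGroup ι) (FreeGroup.of (s j)) -
        evA (fun i => imc (lamG (FreeGroup ι) (mapF s (q i)))) P) := sorry

/-! ### CLO: the matrix tuples reproduce the unitaries -/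

theorem closeness {k m M : ℕ} (e : Fin m → Fin M) (q : Fin (k + 1) → FA M)
    (hq : ∀ i, fst' (q i) = q i) (P : Fin m → NP (k + 1)) (ρ : ℝ) (hρ : 0 < ρ)
    (hop : ∀ j, n2 (leftReg (FreeGroup (Fin M)) (FreeGroup.of (e j)) -
        evA (fun i => imc (lamA M (q i))) (P j)) ≤ ρ) :
    ∃ N₀ : ℕ, ∀ N ≥ N₀, ∀ j, ∫ V, hs2 ((V (e j) : Mt N) -
      evA (fun i => imc (evV V (q i))) (P j)) ∂(PP (Fin M) N) ≤ (2 * ρ) ^ 2 := sorry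

/-! ### LIM: the limit of large matrices -/

theorem main_matrix (k m : ℕ) : ∃ c : ℝ, 0 < c ∧ ∀ (M : ℕ) (e : Fin m → Fin M)
    (_ : Function.Injective e) (q : Fin (k + 1) → FA M) (_ : ∀ i, fst' (q i) = q i)
    (P : Fin m → NP (k + 1)) (ρ δ : ℝ), 0 < ρ → 0 < δ → δ ≤ 1 →
    (∀ j, n2 (leftReg (FreeGroup (Fin M)) (FreeGroup.of (e j)) -
        evA (fun i => imc (lamA M (q i))) (P j)) ≤ ρ) →
    (∀ j, Modu (P j) δ ρ) → c * δ ^ k ≤ ρ ^ (m - 1) := sorry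

theorem main_G (k m : ℕ) : ∃ c : ℝ, 0 < c ∧ ∀ (ι : Type) (e : Fin m → ι)
    (_ : Function.Injective e) (a : Fin (k + 1) → EllTwo (FreeGroup ι) →L[ℂ] EllTwo (FreeGroup ι)),
    (∀ i, a i ∈ LG (FreeGroup ι)) → (∀ i, IsSelfAdjoint (a i)) → (∀ i, ‖a i‖ ≤ 1) →
    ∀ (P : Fin m → NP (k + 1)) (ρ δ : ℝ), 0 < ρ → 0 < δ → δ ≤ 1 →
    (∀ j, n2 (leftReg (FreeGroup ι) (FreeGroup.of (e j)) - evA a (P j)) ≤ ρ) →
    (∀ j, Modu (P j) δ ρ) → c * δ ^ k ≤ ρ ^ (m - 1) := sorry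

/-! ### GEN: approximation by polynomials in generators -/

/-- if `v` commutes with everything that commutes with all `a_i`, then `v δ_e` is a limit of
`P(a) δ_e` -/
theorem gen_approx {G : Type} [Group G] {n : ℕ} (a : Fin n → EllTwo G →L[ℂ] EllTwo G)
    (hs : ∀ i, IsSelfAdjoint (a i)) (v : EllTwo G →L[ℂ] EllTwo G)
    (hv : ∀ x : EllTwo G →L[ℂ] EllTwo G, (∀ i, x * a i = a i * x) → x * v = v * x)
    (ρ : ℝ) (hρ : 0 < ρ) : ∃ P : NP n, n2 (v - evA a P) ≤ ρ := sorry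

end Pool.Agent.H710R2.GP
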