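import Mathlib
import Pool.Agent.H710R2.FF.Defs2
import Pool.Agent.H710R2.FF.Basic
import Pool.Agent.H710R2.FF.Rc
import Pool.Agent.H710R2.FF.Cay
import Pool.Agent.H710R2.GP.Defs

set_option autoImplicit false
set_option linter.unusedSectionVars false

open MeasureTheory
open scoped ComplexConjugate InnerProductSpace

noncomputable section

namespace Pool.Agent.H710R2.GP

open Pool.Agent.H710R2.FF
open Pool.Agent.Helper278 Pool.Agent.Helper436.SN

/-- if `v` commutes with everything that commutes with all `a_i`, then `v δ_e` is a limit of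
`P(a) δ_e` -/
theorem gen_approx {G : Type} [Group G] {n : ℕ} (a : Fin n → EllTwo G →L[ℂ] EllTwo G)
    (hs : ∀ i, IsSelfAdjoint (a i)) (v : EllTwo G →L[ℂ] EllTwo G)
    (hv : ∀ x : EllTwo G →L[ℂ] EllTwo G, (∀ i, x * a i = a i * x) → x * v = v * x)
    (ρ : ℝ) (hρ : 0 < ρ) : ∃ P : NP n, n2 (v - evA a P) ≤ ρ := by
  -- the cyclic subspace
  let L : NP n →ₗ[ℂ] EllTwo G :=
    { toFun := fun P => (evA a P) (dirac G)
      map_add' := fun P Q => by rw [map_add]; rfl
      map_smul' := fun c P => by rw [map_smul]; rfl }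
  set S : Submodule ℂ (EllTwo G) := LinearMap.range L with hS
  set K : Submodule ℂ (EllTwo G) := S.topologicalClosure with hK
  have : CompleteSpace K := (Submodule.isClosed_topologicalClosure S).completeSpace_coe
  have hinvS : ∀ i, ∀ x ∈ S, a i x ∈ S := by
    rintro i x ⟨P, rfl⟩
    refine ⟨FreeAlgebra.ι ℂ i * P, ?_⟩
    show (evA a (FreeAlgebra.ι ℂ i * P)) (dirac G) = a i ((evA a P) (dirac G))
    rw [map_mul]
    have e1 : evA a (FreeAlgebra.ι ℂ i) = a i := FreeAlgebra.lift_ι_apply _ _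
    rw [e1]
    rfl
  have hinvK : ∀ i, ∀ x ∈ K, a i x ∈ K := by
    intro i x hx
    have h1 : Set.MapsTo (a i) (S : Set (EllTwo G)) (S : Set (EllTwo G)) := fun x hx => hinvS i x hx
    exact h1.closure (a i).continuous hx
  have hinvKo : ∀ i, ∀ x ∈ Kᗮ, a i x ∈ Kᗮ := by
    intro i x hx
    rw [Submodule.mem_orthogonal] at hx ⊢
    intro u hu
    have h1 := (ContinuousLinearMap.isSelfAdjoint_iff_isSymmetric.1 (hs i)) u x
    have h2 : ⟪(a i) u, x⟫_ℂ = 0 := hx _ (hinvK i u hu)
    have h3 : ⟪(a i) u, x⟫_ℂ = ⟪u, (a i) x⟫_ℂ := h1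
    rw [← h3, h2]
  set p : EllTwo G →L[ℂ] EllTwo G := K.starProjection with hp
  have hp1 : ∀ x ∈ K, p x = x := fun x hx => Submodule.starProjection_eq_self_iff.2 hx
  have hp2 : ∀ x ∈ Kᗮ, p x = 0 := fun x hx =>
    (Submodule.starProjection_apply_eq_zero_iff (K := K)).2 hx
  have hp3 : ∀ x, p x ∈ K := fun x => Submodule.starProjection_apply_mem K x
  have hp4 : ∀ x, x - p x ∈ Kᗮ := fun x => Submodule.sub_starProjection_mem_orthogonal x
  have hcomm : ∀ i, p * a i = a i * p := by
    intro i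
    ext1 x
    show p (a i x) = a i (p x)
    have e : a i x = a i (p x) + a i (x - p x) := by
      rw [← map_add]
      congr 1
      abel
    rw [e, map_add, hp1 _ (hinvK i _ (hp3 x)), hp2 _ (hinvKo i _ (hp4 x)), add_zero]
  have hpv := hv p hcomm
  have hd : dirac G ∈ K := by
    apply Submodule.le_topologicalClosure
    refine ⟨1, ?_⟩
    show (evA a 1) (dirac G) = dirac G
    rw [map_one]
    rfl
  have hvd : v (dirac G) ∈ K := by
    have h1 : p (v (dirac G)) = v (p (dirac G)) := by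
      have := congrArg (fun T : EllTwo G →L[ℂ] EllTwo G => T (dirac G)) hpv
      exact this
    rw [hp1 _ hd] at h1
    rw [← h1]
    exact hp3 _
  have hcl : v (dirac G) ∈ closure (S : Set (EllTwo G)) := hvd
  obtain ⟨y, ⟨P, hP⟩, hy⟩ := Metric.mem_closure_iff.1 hcl ρ hρ
  refine ⟨P, ?_⟩
  have h1 : n2 (v - evA a P) = ‖v (dirac G) - (evA a P) (dirac G)‖ := rfl
  rw [h1]
  have h2 : (evA a P) (dirac G) = y := hP
  rw [h2, ← dist_eq_norm]
  exact hy.le

end Pool.Agent.H710R2.GP
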