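import Mathlib
import Pool.Agent.H710R2.FF.Defs2
import Pool.Agent.H710R2.FF.Basic
import Pool.Agent.H710R2.FF.Rc
import Pool.Agent.H710R2.FF.Cay
import Pool.Agent.H710R2.GP.Defs

set_option autoImplicit false
set_option linter.unusedSectionVars false

open MeasureTheory
open scoped ComplexConjugate InnerProductSpace

noncomputable section

namespace Pool.Agent.H710R2.GP

open Pool.Agent.H710R2.FF
open Pool.Agent.Helper278 Pool.Agent.Helper436.SN

namespace LIPx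

/-- An algebra norm `ν` and a second norm `μ` which is a bimodule norm on `S`. -/
structure Nrm (A : Type) [Ring A] [Algebra ℂ A] (S : Set A) (ν μ : A → ℝ) : Prop where
  ν_nonneg : ∀ x, 0 ≤ ν x
  ν_scalar : ∀ c : ℂ, ν (algebraMap ℂ A c) ≤ ‖c‖
  ν_add : ∀ x y, ν (x + y) ≤ ν x + ν y
  ν_mul : ∀ x y, ν (x * y) ≤ ν x * ν y
  μ_nonneg : ∀ x, 0 ≤ μ x
  μ_zero : μ 0 = 0
  μ_add : ∀ x y, μ (x + y) ≤ μ x + μ y
  left : ∀ x ∈ S, ∀ y ∈ S, μ (x * y) ≤ ν x * μ y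
  right : ∀ x ∈ S, ∀ y ∈ S, μ (x * y) ≤ μ x * ν y
  S_scalar : ∀ c : ℂ, algebraMap ℂ A c ∈ S
  S_add : ∀ x ∈ S, ∀ y ∈ S, x + y ∈ S
  S_sub : ∀ x ∈ S, ∀ y ∈ S, x - y ∈ S
  S_mul : ∀ x ∈ S, ∀ y ∈ S, x * y ∈ S

theorem key {n : ℕ} (P : NP n) : ∃ B C : ℝ, 0 ≤ B ∧ 0 ≤ C ∧ ∀ (A : Type) [Ring A] [Algebra ℂ A]
    (S : Set A) (ν μ : A → ℝ), Nrm A S ν μ → ∀ (x y : Fin n → A) (ε : ℝ), 0 ≤ ε →
    (∀ i, x i ∈ S) → (∀ i, y i ∈ S) → (∀ i, ν (x i) ≤ 2) → (∀ i, ν (y i) ≤ 2) →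
    (∀ i, μ (x i - y i) ≤ ε) →
    evA x P ∈ S ∧ evA y P ∈ S ∧ ν (evA x P) ≤ B ∧ ν (evA y P) ≤ B ∧
      μ (evA x P - evA y P) ≤ C * ε := by
  induction P using FreeAlgebra.induction with
  | grade0 r =>
    refine ⟨‖r‖, 0, norm_nonneg r, le_rfl, ?_⟩
    intro A _ _ S ν μ h x y ε hε hx hy hx2 hy2 hxy
    have e1 : evA x (algebraMap ℂ (NP n) r) = algebraMap ℂ A r := AlgHom.commutes _ _
    have e2 : evA y (algebraMap ℂ (NP n) r) = algebraMap ℂ A r := AlgHom.commutes _ _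
    rw [e1, e2]
    refine ⟨h.S_scalar r, h.S_scalar r, h.ν_scalar r, h.ν_scalar r, ?_⟩
    rw [sub_self, h.μ_zero, zero_mul]
  | grade1 i =>
    refine ⟨2, 1, by norm_num, by norm_num, ?_⟩
    intro A _ _ S ν μ h x y ε hε hx hy hx2 hy2 hxy
    have e1 : evA x (FreeAlgebra.ι ℂ i) = x i := FreeAlgebra.lift_ι_apply _ _
    have e2 : evA y (FreeAlgebra.ι ℂ i) = y i := FreeAlgebra.lift_ι_apply _ _
    rw [e1, e2]
    refine ⟨hx i, hy i, hx2 i, hy2 i, ?_⟩
    rw [one_mul]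
    exact hxy i
  | mul a b iha ihb =>
    obtain ⟨Ba, Ca, hBa, hCa, ha⟩ := iha
    obtain ⟨Bb, Cb, hBb, hCb, hb⟩ := ihb
    refine ⟨Ba * Bb, Ca * Bb + Ba * Cb, by positivity, by positivity, ?_⟩
    intro A _ _ S ν μ h x y ε hε hx hy hx2 hy2 hxy
    obtain ⟨a1, a2, a3, a4, a5⟩ := ha A S ν μ h x y ε hε hx hy hx2 hy2 hxy
    obtain ⟨b1, b2, b3, b4, b5⟩ := hb A S ν μ h x y ε hε hx hy hx2 hy2 hxy
    rw [map_mul, map_mul]
    refine ⟨h.S_mul _ a1 _ b1, h.S_mul _ a2 _ b2, ?_, ?_, ?_⟩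
    · exact (h.ν_mul _ _).trans (mul_le_mul a3 b3 (h.ν_nonneg _) hBa)
    · exact (h.ν_mul _ _).trans (mul_le_mul a4 b4 (h.ν_nonneg _) hBa)
    · have e : evA x a * evA x b - evA y a * evA y b =
          (evA x a - evA y a) * evA x b + evA y a * (evA x b - evA y b) := by
        rw [sub_mul, mul_sub]
        abel
      rw [e]
      have l1 := h.right _ (h.S_sub _ a1 _ a2) _ b1
      have l2 := h.left _ a2 _ (h.S_sub _ b1 _ b2)
      calc μ ((evA x a - evA y a) * evA x b + evA y a * (evA x b - evA y b))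
          ≤ μ (evA x a - evA y a) * ν (evA x b) + ν (evA y a) * μ (evA x b - evA y b) :=
            (h.μ_add _ _).trans (add_le_add l1 l2)
        _ ≤ (Ca * ε) * Bb + Ba * (Cb * ε) := by
            apply add_le_add
            · exact mul_le_mul a5 b3 (h.ν_nonneg _) (by positivity)
            · exact mul_le_mul a4 b5 (h.μ_nonneg _) hBa
        _ = _ := by ring
  | add a b iha ihb =>
    obtain ⟨Ba, Ca, hBa, hCa, ha⟩ := iha
    obtain ⟨Bb, Cb, hBb, hCb, hb⟩ := ihb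
    refine ⟨Ba + Bb, Ca + Cb, by positivity, by positivity, ?_⟩
    intro A _ _ S ν μ h x y ε hε hx hy hx2 hy2 hxy
    obtain ⟨a1, a2, a3, a4, a5⟩ := ha A S ν μ h x y ε hε hx hy hx2 hy2 hxy
    obtain ⟨b1, b2, b3, b4, b5⟩ := hb A S ν μ h x y ε hε hx hy hx2 hy2 hxy
    rw [map_add, map_add]
    refine ⟨h.S_add _ a1 _ b1, h.S_add _ a2 _ b2, ?_, ?_, ?_⟩
    · exact (h.ν_add _ _).trans (add_le_add a3 b3)
    · exact (h.ν_add _ _).trans (add_le_add a4 b4)
    · have e : evA x a + evA x b - (evA y a + evA y b) =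
          (evA x a - evA y a) + (evA x b - evA y b) := by abel
      rw [e]
      calc _ ≤ μ (evA x a - evA y a) + μ (evA x b - evA y b) := h.μ_add _ _
        _ ≤ Ca * ε + Cb * ε := add_le_add a5 b5
        _ = _ := by ring

end LIPx

open LIPx

theorem lip_opn {n : ℕ} (P : NP n) : ∃ C : ℝ, 0 ≤ C ∧ ∀ (N : ℕ) (A B : Fin n → Mt N) (ε : ℝ),
    0 ≤ ε → (∀ i, opn (A i) ≤ 2) → (∀ i, opn (B i) ≤ 2) → (∀ i, opn (A i - B i) ≤ ε) →
    opn (evA A P - evA B P) ≤ C * ε := by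
  obtain ⟨B, C, -, hC, h⟩ := key P
  refine ⟨C, hC, ?_⟩
  intro N A B ε hε hA hB hAB
  have hN : Nrm (Mt N) Set.univ (opn : Mt N → ℝ) (opn : Mt N → ℝ) :=
    { ν_nonneg := opn_nonneg
      ν_scalar := fun c => by
        rw [Algebra.algebraMap_eq_smul_one, opn_smul]
        calc ‖c‖ * opn (1 : Mt N) ≤ ‖c‖ * 1 :=
              mul_le_mul_of_nonneg_left opn_one (norm_nonneg c)
          _ = ‖c‖ := mul_one _
      ν_add := opn_add
      ν_mul := opn_mul
      μ_nonneg := opn_nonneg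
      μ_zero := by
        have := opn_smul (0 : ℂ) (0 : Mt N)
        rw [zero_smul, norm_zero, zero_mul] at this
        exact this
      μ_add := opn_add
      left := fun x _ y _ => opn_mul x y
      right := fun x _ y _ => opn_mul x y
      S_scalar := fun _ => Set.mem_univ _
      S_add := fun _ _ _ _ => Set.mem_univ _
      S_sub := fun _ _ _ _ => Set.mem_univ _
      S_mul := fun _ _ _ _ => Set.mem_univ _ }
  exact (h (Mt N) Set.univ opn opn hN A B ε hε (fun _ => Set.mem_univ _) (fun _ => Set.mem_univ _)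
    hA hB hAB).2.2.2.2

theorem lip_norm {n : ℕ} (P : NP n) : ∃ C : ℝ, 0 ≤ C ∧ ∀ (A : Type) [NormedRing A]
    [NormedAlgebra ℂ A] [NormOneClass A] (x y : Fin n → A) (ε : ℝ),
    0 ≤ ε → (∀ i, ‖x i‖ ≤ 2) → (∀ i, ‖y i‖ ≤ 2) → (∀ i, ‖x i - y i‖ ≤ ε) →
    ‖evA x P - evA y P‖ ≤ C * ε := by
  obtain ⟨B, C, -, hC, h⟩ := key P
  refine ⟨C, hC, ?_⟩
  intro A _ _ _ x y ε hε hx hy hxy
  have hN : Nrm A Set.univ (fun a : A => ‖a‖) (fun a : A => ‖a‖) :=
    { ν_nonneg := fun x => norm_nonneg x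
      ν_scalar := fun c => (norm_algebraMap' A c).le
      ν_add := norm_add_le
      ν_mul := norm_mul_le
      μ_nonneg := fun x => norm_nonneg x
      μ_zero := norm_zero
      μ_add := norm_add_le
      left := fun x _ y _ => norm_mul_le x y
      right := fun x _ y _ => norm_mul_le x y
      S_scalar := fun _ => Set.mem_univ _
      S_add := fun _ _ _ _ => Set.mem_univ _
      S_sub := fun _ _ _ _ => Set.mem_univ _
      S_mul := fun _ _ _ _ => Set.mem_univ _ }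
  exact (h A Set.univ _ _ hN x y ε hε (fun _ => Set.mem_univ _) (fun _ => Set.mem_univ _)
    hx hy hxy).2.2.2.2

theorem evA_mem_RC {G : Type} [Group G] {n : ℕ} (P : NP n)
    (x : Fin n → EllTwo G →L[ℂ] EllTwo G) (hx : ∀ i, x i ∈ RC G) : evA x P ∈ RC G := by
  induction P using FreeAlgebra.induction with
  | grade0 r =>
    have e1 : evA x (algebraMap ℂ (NP n) r) = algebraMap ℂ _ r := AlgHom.commutes _ _
    rw [e1, Algebra.algebraMap_eq_smul_one]
    exact RC_smul r RC_one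
  | grade1 i =>
    have e1 : evA x (FreeAlgebra.ι ℂ i) = x i := FreeAlgebra.lift_ι_apply _ _
    rw [e1]
    exact hx i
  | mul a b iha ihb =>
    rw [map_mul]
    exact RC_mul iha ihb
  | add a b iha ihb =>
    rw [map_add]
    exact RC_add iha ihb

theorem lip_n2 {n : ℕ} (P : NP n) : ∃ C : ℝ, 0 ≤ C ∧ ∀ (G : Type) [Group G]
    (x y : Fin n → EllTwo G →L[ℂ] EllTwo G) (ε : ℝ), 0 ≤ ε → (∀ i, x i ∈ RC G) →
    (∀ i, y i ∈ RC G) → (∀ i, ‖x i‖ ≤ 2) → (∀ i, ‖y i‖ ≤ 2) → (∀ i, n2 (x i - y i) ≤ ε) →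
    n2 (evA x P - evA y P) ≤ C * ε := by
  obtain ⟨B, C, -, hC, h⟩ := key P
  refine ⟨C, hC, ?_⟩
  intro G _ x y ε hε hxR hyR hx hy hxy
  have hN : Nrm (EllTwo G →L[ℂ] EllTwo G) (RC G) (fun a => ‖a‖) n2 :=
    { ν_nonneg := fun x => norm_nonneg x
      ν_scalar := fun c => by
        show ‖algebraMap ℂ (EllTwo G →L[ℂ] EllTwo G) c‖ ≤ ‖c‖
        rw [Algebra.algebraMap_eq_smul_one, norm_smul]
        calc ‖c‖ * ‖(1 : EllTwo G →L[ℂ] EllTwo G)‖ ≤ ‖c‖ * 1 :=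
              mul_le_mul_of_nonneg_left ContinuousLinearMap.norm_id_le (norm_nonneg c)
          _ = ‖c‖ := mul_one _
      ν_add := norm_add_le
      ν_mul := norm_mul_le
      μ_nonneg := n2_nonneg
      μ_zero := by
        have := n2_smul (0 : ℂ) (0 : EllTwo G →L[ℂ] EllTwo G)
        rw [zero_smul, norm_zero, zero_mul] at this
        exact this
      μ_add := n2_add
      left := fun x _ y _ => n2_mul_left x y
      right := fun x hx y hy => (n2_mul_right hx hy).trans (mul_comm _ _).le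
      S_scalar := fun c => by
        rw [Algebra.algebraMap_eq_smul_one]
        exact RC_smul c RC_one
      S_add := fun _ hx _ hy => RC_add hx hy
      S_sub := fun _ hx _ hy => RC_sub hx hy
      S_mul := fun _ hx _ hy => RC_mul hx hy }
  exact (h (EllTwo G →L[ℂ] EllTwo G) (RC G) _ n2 hN x y ε hε hxR hyR hx hy hxy).2.2.2.2

end Pool.Agent.H710R2.GP
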