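import Mathlib
import Pool.Agent.H710R2.FF.Defs2
import Pool.Agent.H710R2.FF.Basic
import Pool.Agent.H710R2.FF.Rc
import Pool.Agent.H710R2.FF.Cay
import Pool.Agent.H710R2.GP.Defs
import Pool.Agent.H710R2.FF.Master
import Pool.Agent.H710R2.FF.Mix2

set_option autoImplicit false
set_option linter.unusedSectionVars false

open MeasureTheory
open scoped ComplexConjugate InnerProductSpace

noncomputable section

namespace Pool.Agent.H710R2.GP

open Pool.Agent.H710R2.FF
open Pool.Agent.Helper278 Pool.Agent.Helper436.SN

/-! ### MOM: moments of Haar unitaries -/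

section mom

variable {M N : ℕ}

/-- letters of an element of the free group -/
def mom_let (N : ℕ) (g : FreeGroup (Fin M)) : List (Lt (Fin M) N) :=
  g.toWord.map fun x => (x.1, x.2, (1 : Mt N))

theorem mom_evV_of (V : Fin M → UN N) (g : FreeGroup (Fin M)) :
    evV V (MonoidAlgebra.of ℂ _ g) = ((FreeGroup.lift V g : UN N) : Mt N) := by
  unfold evV
  rw [MonoidAlgebra.lift_of]
  rfl

theorem mom_ev_let (V : Fin M → UN N) (g : FreeGroup (Fin M)) :
    ev V (mom_let N g) = evV V (MonoidAlgebra.of ℂ _ g) := by
  rw [mom_evV_of]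
  conv_rhs => rw [← FreeGroup.mk_toWord (x := g)]
  rw [FreeGroup.lift_mk]
  unfold mom_let ev
  generalize g.toWord = L
  induction L with
  | nil => simp
  | cons x L ih =>
    rw [List.map_cons, List.map_cons, List.prod_cons, ih, List.map_cons, List.prod_cons]
    rw [Submonoid.coe_mul]
    congr 1
    rw [mul_one]
    unfold lit
    rcases x with ⟨j, e⟩
    cases e
    · simp only [Bool.false_eq_true, if_false, cond_false]
      rfl
    · simp only [if_true, cond_true]

theorem mom_wt_let (g : FreeGroup (Fin M)) : wt (mom_let N g) ≤ 1 := by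
  unfold wt mom_let
  generalize g.toWord = L
  induction L with
  | nil => simp
  | cons x L ih =>
    rw [List.map_cons, List.map_cons, List.prod_cons]
    refine mul_le_one₀ opn_one ?_ ih
    apply List.prod_nonneg
    intro a ha
    simp only [List.map_map, List.mem_map, Function.comp] at ha
    obtain ⟨y, _, rfl⟩ := ha
    exact opn_nonneg _

theorem mom_good_let (g : FreeGroup (Fin M)) : Good (mom_let N g) := by
  unfold Good mom_let
  rw [List.isChain_map]
  have h : FreeGroup.IsReduced g.toWord := FreeGroup.isReduced_toWord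
  refine List.IsChain.imp ?_ h
  intro a b hab h1 h2
  exact absurd (hab h1) h2

theorem mom_cont_evV (b : FA M) : Continuous fun V : Fin M → UN N => evV V b := by
  induction b using MonoidAlgebra.induction_on with
  | of g =>
    have : (fun V : Fin M → UN N => evV V (MonoidAlgebra.of ℂ _ g)) =
        fun V => ev V (mom_let N g) := by
      funext V
      rw [mom_ev_let]
    rw [this]
    exact continuous_ev _
  | add a b ha hb =>
    simp only [map_add]
    exact ha.add hb
  | smul r a ha =>
    simp only [map_smul]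
    exact ha.const_smul r

theorem mom_base (g : FreeGroup (Fin M)) : ∃ C : ℝ, 0 ≤ C ∧ ∀ N : ℕ, 0 < N →
    ‖(∫ V, ntr (evV V (MonoidAlgebra.of ℂ _ g : FA M)) ∂(PP (Fin M) N)) -
      tau (MonoidAlgebra.of ℂ _ g : FA M)‖ ≤ C / N := by
  by_cases hg : g = 1
  · subst hg
    refine ⟨0, le_rfl, fun N hN => ?_⟩
    have h1 : ∀ V : Fin M → UN N, ntr (evV V (MonoidAlgebra.of ℂ _ 1 : FA M)) = 1 := by
      intro V
      rw [map_one, map_one, ntr_one hN]
    have h2 : tau (MonoidAlgebra.of ℂ _ 1 : FA M) = 1 := by
      unfold tau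
      rw [MonoidAlgebra.of_apply]
      simp
    simp only [h1, h2]
    simp
  · obtain ⟨C, hC, h⟩ := master (Fin M) g.toWord.length 0
    refine ⟨C, hC, fun N hN => ?_⟩
    have hne : mom_let N g ≠ [] := by
      intro h0
      apply hg
      unfold mom_let at h0
      rw [List.map_eq_nil_iff] at h0
      exact FreeGroup.toWord_eq_nil_iff.1 h0
    have h1 := h N hN (mom_let N g) [] hne (by simp [mom_let]) (by simp [lenR]) (mom_good_let g)
    have h2 : ∀ V : Fin M → UN N, T V (mom_let N g) * TR V [] =
        ntr (evV V (MonoidAlgebra.of ℂ _ g : FA M)) := by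
      intro V
      unfold T TR
      rw [mom_ev_let]
      simp
    simp only [h2] at h1
    have h3 : wtR ([] : List (List (Lt (Fin M) N))) = 1 := by simp [wtR]
    rw [h3, mul_one] at h1
    have h0 : tau (MonoidAlgebra.of ℂ _ g : FA M) = 0 := by
      unfold tau
      rw [MonoidAlgebra.of_apply]
      simp [hg]
    rw [h0, sub_zero]
    refine h1.trans ?_
    have hN1 : (1 : ℝ) ≤ N := by exact_mod_cast hN
    have h4 : C * wt (mom_let N g) ≤ C * 1 := mul_le_mul_of_nonneg_left (mom_wt_let g) hC
    have h5 : (N : ℝ) ≤ (N : ℝ) ^ 2 := by nlinarith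
    calc C * wt (mom_let N g) / (N : ℝ) ^ 2 ≤ C * 1 / (N : ℝ) ^ 2 := by gcongr
      _ ≤ C * 1 / (N : ℝ) := by gcongr
      _ = C / N := by rw [mul_one]

end mom

theorem mom {M : ℕ} (f : FA M) : ∃ C : ℝ, 0 ≤ C ∧ ∀ N : ℕ, 0 < N →
    ‖(∫ V, ntr (evV V f) ∂(PP (Fin M) N)) - tau f‖ ≤ C / N := by
  induction f using MonoidAlgebra.induction_on with
  | of g => exact mom_base g
  | add a b ha hb =>
    obtain ⟨C, hC, h1⟩ := ha
    obtain ⟨C', hC', h2⟩ := hb
    refine ⟨C + C', by positivity, fun N hN => ?_⟩
    have e : ∀ V : Fin M → UN N, ntr (evV V (a + b)) = ntr (evV V a) + ntr (evV V b) := by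
      intro V
      rw [map_add, ntr_add]
    have et : tau (a + b) = tau a + tau b := by simp [tau]
    simp only [e]
    have i1 : Integrable (fun V : Fin M → UN N => ntr (evV V a)) (PP (Fin M) N) :=
      integrable_cont (continuous_ntr.comp (mom_cont_evV a))
    have i2 : Integrable (fun V : Fin M → UN N => ntr (evV V b)) (PP (Fin M) N) :=
      integrable_cont (continuous_ntr.comp (mom_cont_evV b))
    rw [integral_add i1 i2, et, add_sub_add_comm, add_div]
    exact (norm_add_le _ _).trans (add_le_add (h1 N hN) (h2 N hN))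
  | smul r a ha =>
    obtain ⟨C, hC, h1⟩ := ha
    refine ⟨‖r‖ * C, by positivity, fun N hN => ?_⟩
    have e : ∀ V : Fin M → UN N, ntr (evV V (r • a)) = r * ntr (evV V a) := by
      intro V
      rw [map_smul, ntr_smul]
    have et : tau (r • a) = r * tau a := by simp [tau]
    simp only [e]
    rw [integral_const_mul, et, ← mul_sub, norm_mul, mul_div_assoc]
    exact mul_le_mul_of_nonneg_left (h1 N hN) (norm_nonneg _)

end Pool.Agent.H710R2.GP
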