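import Mathlib
import Pool.Agent.H710R2.FF.Defs2
import Pool.Agent.H710R2.FF.Basic
import Pool.Agent.H710R2.FF.Rc
import Pool.Agent.H710R2.FF.Cay
import Pool.Agent.H710R2.GP.Defs

/-!
Imaginary part of the Cayley transform (task SAC of helper710; helper124).
-/

set_option autoImplicit false
set_option linter.unusedSectionVars false

open MeasureTheory
open scoped ComplexConjugate InnerProductSpace

noncomputable section

namespace Pool.Agent.H710R2.GP

open Pool.Agent.H710R2.FF
open Pool.Agent.Helper278 Pool.Agent.Helper436.SN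

section gen

variable {A : Type} [CStarAlgebra A]

lemma sac_den_ne {z : ℂ} (h : z = (z.re : ℂ)) : 1 - Complex.I * z ≠ 0 := by
  rw [h]
  intro h0
  have := congrArg Complex.re h0
  simp at this

lemma sac_cfc_den (x : A) (hx : IsSelfAdjoint x) :
    cfc (fun z : ℂ => 1 - Complex.I * z) x = 1 - Complex.I • x := by
  have hn : IsStarNormal x := hx.isStarNormal
  rw [cfc_sub (fun _ => (1 : ℂ)) (fun z => Complex.I * z) x, cfc_const_mul_id Complex.I x,
    cfc_const_one ℂ x]

lemma sac_isUnit (x : A) (hx : IsSelfAdjoint x) : IsUnit (1 - Complex.I • x) := by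
  have hn : IsStarNormal x := hx.isStarNormal
  rw [← sac_cfc_den x hx, isUnit_cfc_iff (fun z : ℂ => 1 - Complex.I * z) x]
  exact fun z hz => sac_den_ne (hx.mem_spectrum_eq_re hz)

lemma sac_inv_norm (x : A) (hx : IsSelfAdjoint x) :
    ‖Ring.inverse (1 - Complex.I • x)‖ ≤ 1 := by
  have hn : IsStarNormal x := hx.isStarNormal
  rw [← sac_cfc_den x hx, ← cfc_inv (fun z : ℂ => 1 - Complex.I * z) x
    (fun z hz => sac_den_ne (hx.mem_spectrum_eq_re hz))]
  refine norm_cfc_le zero_le_one (fun z hz => ?_)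
  have h := hx.mem_spectrum_eq_re hz
  rw [norm_inv]
  refine inv_le_one_of_one_le₀ ?_
  have h2 : (1 - Complex.I * z).re = 1 := by rw [h]; simp
  calc (1 : ℝ) = |(1 - Complex.I * z).re| := by rw [h2, abs_one]
    _ ≤ ‖1 - Complex.I * z‖ := Complex.abs_re_le_norm _

lemma sac_cay_unit (x : A) (hx : IsSelfAdjoint x) : star (cay x) * cay x = 1 := by
  set u : A := 1 - Complex.I • x with hu
  set v : A := 1 + Complex.I • x with hv
  set w : A := Ring.inverse u with hw
  have hU := sac_isUnit x hx
  have h1 : u * w = 1 := Ring.mul_inverse_cancel _ hU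
  have h2 : w * u = 1 := Ring.inverse_mul_cancel _ hU
  have hsu : star u = v := by
    rw [hu, hv, star_sub, star_one, star_smul, hx.star_eq, Complex.star_def, Complex.conj_I,
      neg_smul, sub_neg_eq_add]
  have hsv : star v = u := by rw [← hsu, star_star]
  have hc : u * v = v * u := by
    rw [hu, hv]
    generalize Complex.I • x = y
    noncomm_ring
  have h3 : star w * v = 1 := by rw [← hsu, ← star_mul, h1, star_one]
  have hcay : cay x = v * w := rfl
  rw [hcay, star_mul, hsv]
  calc star w * u * (v * w) = star w * (u * v) * w := by noncomm_ring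
    _ = (star w * v) * (u * w) := by rw [hc]; noncomm_ring
    _ = 1 := by rw [h3, h1, one_mul]

lemma sac_norm_one : ‖(1 : A)‖ ≤ 1 := by
  have h : ‖(1 : A)‖ = ‖(1 : A)‖ * ‖(1 : A)‖ := by
    have := CStarRing.norm_star_mul_self (x := (1 : A))
    rwa [star_one, one_mul] at this
  have h0 := norm_nonneg (1 : A)
  nlinarith [sq_nonneg (‖(1 : A)‖ - 1)]

lemma sac_cay_norm (x : A) (hx : IsSelfAdjoint x) : ‖cay x‖ ≤ 1 := by
  have h := CStarRing.norm_star_mul_self (x := cay x)
  rw [sac_cay_unit x hx] at h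
  have h1 := sac_norm_one (A := A)
  have h0 := norm_nonneg (cay x)
  nlinarith

lemma sac_imc_sa (x : A) : IsSelfAdjoint (imc x) := by
  unfold imc
  rw [IsSelfAdjoint, star_smul, star_sub, star_star, ← neg_sub (cay x) (star (cay x)),
    smul_neg, ← neg_smul]
  congr 1
  simp
  ring

lemma sac_imc_norm (x : A) (hx : IsSelfAdjoint x) : ‖imc x‖ ≤ 1 := by
  unfold imc
  rw [norm_smul]
  have h1 : ‖(-(Complex.I) / 2 : ℂ)‖ = 1 / 2 := by simp
  have h2 := norm_sub_le (cay x) (star (cay x))
  have h3 := sac_cay_norm x hx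
  rw [norm_star] at h2
  rw [h1]
  linarith

lemma sac_cay_eq (x : A) (hx : IsSelfAdjoint x) :
    cay x = 2 • Ring.inverse (1 - Complex.I • x) - 1 := by
  have h1 : (1 - Complex.I • x) * Ring.inverse (1 - Complex.I • x) = 1 :=
    Ring.mul_inverse_cancel _ (sac_isUnit x hx)
  set w := Ring.inverse (1 - Complex.I • x) with hw
  have : cay x = (1 + Complex.I • x) * w := rfl
  rw [this, show (1 : A) + Complex.I • x = 2 • 1 - (1 - Complex.I • x) by
    rw [two_smul]; abel, sub_mul, h1, smul_mul_assoc, one_mul]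

lemma sac_cay_sub (x y : A) (hx : IsSelfAdjoint x) (hy : IsSelfAdjoint y) :
    cay x - cay y = (2 * Complex.I) • (Ring.inverse (1 - Complex.I • x) * (x - y) *
      Ring.inverse (1 - Complex.I • y)) := by
  have h2 : Ring.inverse (1 - Complex.I • x) * (1 - Complex.I • x) = 1 :=
    Ring.inverse_mul_cancel _ (sac_isUnit x hx)
  have h3 : (1 - Complex.I • y) * Ring.inverse (1 - Complex.I • y) = 1 :=
    Ring.mul_inverse_cancel _ (sac_isUnit y hy)
  rw [sac_cay_eq x hx, sac_cay_eq y hy]
  set w := Ring.inverse (1 - Complex.I • x) with hw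
  set w' := Ring.inverse (1 - Complex.I • y) with hw'
  have e3 : w - w' = Complex.I • (w * (x - y) * w') := by
    calc w - w' = w * ((1 - Complex.I • y) * w') - (w * (1 - Complex.I • x)) * w' := by
          rw [h3, h2, mul_one, one_mul]
      _ = w * ((1 - Complex.I • y) - (1 - Complex.I • x)) * w' := by noncomm_ring
      _ = w * (Complex.I • (x - y)) * w' := by
          congr 2
          rw [smul_sub]; abel
      _ = _ := by rw [mul_smul_comm, smul_mul_assoc]
  calc 2 • w - 1 - (2 • w' - 1) = 2 • (w - w') := by rw [smul_sub]; abel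
    _ = _ := by
      rw [e3, two_smul, two_mul, add_smul]

/-- `imc y (1 + y²) = 2 y` -/
lemma sac_imc_mul (y : A) (hy : IsSelfAdjoint y) : imc y * (1 + y * y) = 2 • y := by
  set u : A := 1 - Complex.I • y with hu
  set v : A := 1 + Complex.I • y with hv
  have hU := sac_isUnit y hy
  have h1 : u * Ring.inverse u = 1 := Ring.mul_inverse_cancel _ hU
  have h2 : Ring.inverse u * u = 1 := Ring.inverse_mul_cancel _ hU
  set w : A := Ring.inverse u with hw
  have hsu : star u = v := by
    rw [hu, hv, star_sub, star_one, star_smul, hy.star_eq, Complex.star_def, Complex.conj_I,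
      neg_smul, sub_neg_eq_add]
  have h3 : star w * v = 1 := by rw [← hsu, ← star_mul, h1, star_one]
  have h4 : v * star w = 1 := by rw [← hsu, ← star_mul, h2, star_one]
  have huv : u * v = 1 + y * y := by
    rw [hu, hv, sub_mul, mul_add, mul_add, smul_mul_smul_comm, Complex.I_mul_I]
    simp only [one_mul, mul_one, neg_smul, one_smul]
    abel
  have hvu : v * u = 1 + y * y := by
    rw [hu, hv, add_mul, mul_sub, mul_sub, smul_mul_smul_comm, Complex.I_mul_I]
    simp only [one_mul, mul_one, neg_smul, one_smul]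
    abel
  have e1 : cay y = 2 • w - 1 := sac_cay_eq y hy
  have e2 : cay y - star (cay y) = 2 • (w - star w) := by
    rw [e1, star_sub, star_one, star_smul, smul_sub]
    simp only [star_ofNat]
    abel
  have e3 : (w - star w) * (1 + y * y) = v - u := by
    rw [sub_mul]
    nth_rw 1 [← huv]
    rw [← hvu, ← mul_assoc, ← mul_assoc, h2, h3, one_mul, one_mul]
  have e4 : v - u = (2 * Complex.I) • y := by
    rw [hu, hv, two_mul, add_smul]
    abel
  unfold imc
  rw [smul_mul_assoc, e2, smul_mul_assoc, e3, e4]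
  rw [← Nat.cast_smul_eq_nsmul ℂ 2 ((2 * Complex.I) • y), ← Nat.cast_smul_eq_nsmul ℂ 2 y,
    smul_smul, smul_smul]
  congr 1
  push_cast
  linear_combination (-2 : ℂ) * Complex.I_mul_I

lemma sac_sq_unit (y : A) (hy : IsSelfAdjoint y) : IsUnit (1 + y * y) := by
  have hU := sac_isUnit y hy
  have hV : IsUnit (1 + Complex.I • y) := by
    have := hU.star
    rwa [star_sub, star_one, star_smul, hy.star_eq, Complex.star_def, Complex.conj_I,
      neg_smul, sub_neg_eq_add] at this
  have h := hU.mul hV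
  have huv : (1 - Complex.I • y) * (1 + Complex.I • y) = 1 + y * y := by
    rw [sub_mul, mul_add, mul_add, smul_mul_smul_comm, Complex.I_mul_I]
    simp only [one_mul, mul_one, neg_smul, one_smul]
    abel
  rwa [huv] at h

/-- the solution of `2 f / (1 + f²) = t` -/
def sacf (t : ℝ) : ℝ := t / (1 + √(1 - t ^ 2))

lemma sacf_cont : Continuous sacf := by
  unfold sacf
  refine Continuous.div continuous_id (by fun_prop) (fun t => ?_)
  have := Real.sqrt_nonneg (1 - t ^ 2)
  positivity

lemma sacf_eq {t : ℝ} (ht : |t| ≤ 1) : t * (1 + sacf t * sacf t) = 2 * sacf t := by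
  have h1 : t ^ 2 ≤ 1 := by
    rw [← sq_abs]
    exact pow_le_one₀ (abs_nonneg t) ht
  have h2 := Real.sqrt_nonneg (1 - t ^ 2)
  have h3 := Real.sq_sqrt (show 0 ≤ 1 - t ^ 2 by linarith)
  unfold sacf
  have h4 : (1 + √(1 - t ^ 2)) ≠ 0 := by positivity
  field_simp
  linear_combination t * h3

lemma sacf_le {t : ℝ} (ht : |t| ≤ 1) : |sacf t| ≤ 1 := by
  have h2 := Real.sqrt_nonneg (1 - t ^ 2)
  unfold sacf
  rw [abs_div, abs_of_pos (show 0 < 1 + √(1 - t ^ 2) by positivity)]
  rw [div_le_one (by positivity)]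
  linarith

lemma sac_exists (a : A) (hs : IsSelfAdjoint a) (hn : ‖a‖ ≤ 1) :
    ∃ y : A, (∀ b : A, Commute a b → Commute y b) ∧ IsSelfAdjoint y ∧ ‖y‖ ≤ 1 ∧ imc y = a := by
  have hsp : ∀ t ∈ spectrum ℝ a, |t| ≤ 1 := by
    intro t ht
    rcases subsingleton_or_nontrivial A with hA | hA
    · simp at ht
    · exact (spectrum.norm_le_norm_of_mem ht).trans hn
  have hsa : IsSelfAdjoint (cfc sacf a) := IsSelfAdjoint.cfc
  refine ⟨cfc sacf a, fun b hb => Commute.cfc_real hb sacf, hsa, ?_, ?_⟩
  · refine norm_cfc_le zero_le_one (fun t ht => ?_)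
    rw [Real.norm_eq_abs]
    exact sacf_le (hsp t ht)
  · have hU := sac_sq_unit (cfc sacf a) hsa
    have h1 := sac_imc_mul (cfc sacf a) hsa
    have h2 : a * (1 + cfc sacf a * cfc sacf a) = 2 • cfc sacf a := by
      have hc := sacf_cont
      have e1 : (1 : A) + cfc sacf a * cfc sacf a = cfc (fun t => 1 + sacf t * sacf t) a := by
        rw [cfc_const_add (1 : ℝ) (fun t => sacf t * sacf t) a, map_one,
          cfc_mul sacf sacf a]
      rw [e1]
      conv_lhs => rw [← cfc_id' ℝ a]
      rw [cfc_id' ℝ a]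
      have e2 : a * cfc (fun t => 1 + sacf t * sacf t) a =
          cfc (fun t => t * (1 + sacf t * sacf t)) a := by
        rw [cfc_mul (fun t => t) (fun t => 1 + sacf t * sacf t) a, cfc_id' ℝ a]
      rw [e2]
      have e3 : cfc (fun t => t * (1 + sacf t * sacf t)) a = cfc (fun t => 2 * sacf t) a :=
        cfc_congr (fun t ht => sacf_eq (hsp t ht))
      rw [e3, cfc_const_mul (2 : ℝ) sacf a, ← Nat.cast_smul_eq_nsmul ℝ 2]
      norm_num
    exact hU.mul_right_cancel (h1.trans h2.symm)

end gen

theorem exists_imc {G : Type} [Group G] (a : EllTwo G →L[ℂ] EllTwo G) (ha : a ∈ RC G)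
    (hs : IsSelfAdjoint a) (hn : ‖a‖ ≤ 1) :
    ∃ y : EllTwo G →L[ℂ] EllTwo G, y ∈ RC G ∧ IsSelfAdjoint y ∧ ‖y‖ ≤ 1 ∧ imc y = a := by
  obtain ⟨y, h0, h1, h2, h3⟩ := sac_exists a hs hn
  refine ⟨y, ?_, h1, h2, h3⟩
  intro g
  have h4 : Commute a (rightReg G g) := ha g
  exact h0 _ h4

lemma sac_RC_cay {G : Type} [Group G] {y : EllTwo G →L[ℂ] EllTwo G} (hy : y ∈ RC G) :
    cay y ∈ RC G := by
  unfold cay
  exact RC_mul (RC_add RC_one (RC_smul _ hy)) (RC_inv (RC_sub RC_one (RC_smul _ hy)))

theorem imc_props {G : Type} [Group G] (y : EllTwo G →L[ℂ] EllTwo G) (hy : y ∈ RC G)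
    (hs : IsSelfAdjoint y) : imc y ∈ RC G ∧ IsSelfAdjoint (imc y) ∧ ‖imc y‖ ≤ 1 := by
  refine ⟨?_, sac_imc_sa y, sac_imc_norm y hs⟩
  unfold imc
  exact RC_smul _ (RC_sub (sac_RC_cay hy) (RC_star (sac_RC_cay hy)))

theorem imc_lip {G : Type} [Group G] (x y : EllTwo G →L[ℂ] EllTwo G) (hx : x ∈ RC G)
    (hy : y ∈ RC G) (hxs : IsSelfAdjoint x) (hys : IsSelfAdjoint y) :
    n2 (imc x - imc y) ≤ 2 * n2 (x - y) := by
  have hrx : Ring.inverse (1 - Complex.I • x) ∈ RC G := RC_inv (RC_sub RC_one (RC_smul _ hx))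
  have hry : Ring.inverse (1 - Complex.I • y) ∈ RC G := RC_inv (RC_sub RC_one (RC_smul _ hy))
  have h1 : n2 (cay x - cay y) ≤ 2 * n2 (x - y) := by
    rw [sac_cay_sub x y hxs hys, n2_smul]
    have h2 : ‖(2 * Complex.I : ℂ)‖ = 2 := by simp
    rw [h2]
    refine mul_le_mul_of_nonneg_left ?_ (by norm_num)
    refine (n2_mul_right (RC_mul hrx (RC_sub hx hy)) hry).trans ?_
    have h3 := sac_inv_norm x hxs
    have h4 := sac_inv_norm y hys
    have h5 := n2_mul_left (Ring.inverse (1 - Complex.I • x)) (x - y)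
    have h6 := n2_nonneg (x - y)
    have h7 := n2_nonneg (Ring.inverse (1 - Complex.I • x) * (x - y))
    have h8 : ‖Ring.inverse (1 - Complex.I • x)‖ * n2 (x - y) ≤ 1 * n2 (x - y) :=
      mul_le_mul_of_nonneg_right h3 h6
    have h9 : ‖Ring.inverse (1 - Complex.I • y)‖ * n2 (Ring.inverse (1 - Complex.I • x) * (x - y))
        ≤ 1 * n2 (Ring.inverse (1 - Complex.I • x) * (x - y)) :=
      mul_le_mul_of_nonneg_right h4 h7
    linarith
  have h2 : n2 (star (cay x) - star (cay y)) = n2 (cay x - cay y) := by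
    rw [← star_sub]
    exact n2_star (RC_sub (sac_RC_cay hx) (sac_RC_cay hy))
  have h3 : imc x - imc y =
      (-(Complex.I) / 2 : ℂ) • ((cay x - cay y) - (star (cay x) - star (cay y))) := by
    unfold imc
    rw [← smul_sub]
    congr 1
    abel
  rw [h3, n2_smul]
  have h4 := n2_sub (cay x - cay y) (star (cay x) - star (cay y))
  have h5 : ‖(-(Complex.I) / 2 : ℂ)‖ = 1 / 2 := by simp
  rw [h5]
  linarith

open scoped Matrix.Norms.L2Operator in
theorem imc_matrix {N : ℕ} (x : Mt N) (hx : x.IsHermitian) :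
    (imc x).IsHermitian ∧ opn (imc x) ≤ 1 :=
  ⟨sac_imc_sa (A := Mt N) x, sac_imc_norm (A := Mt N) x hx⟩

lemma sac_evV_of {M N : ℕ} (V : Fin M → UN N) (g : FreeGroup (Fin M)) :
    evV V (MonoidAlgebra.of ℂ _ g) = ((FreeGroup.lift V g : UN N) : Mt N) := by
  unfold evV
  rw [MonoidAlgebra.lift_of]
  rfl

/-- continuity of the evaluation -/
lemma sac_cont_evV {M N : ℕ} (q : FA M) : Continuous fun V : Fin M → UN N => evV V q := by
  induction q using MonoidAlgebra.induction_on with
  | of g =>
    have h1 : Continuous fun V : Fin M → UN N => (FreeGroup.lift V g : UN N) := by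
      induction g using FreeGroup.induction_on with
      | C1 => simpa using continuous_const
      | of i => simpa using continuous_apply i
      | inv_of i _ =>
        have h2 : Continuous fun V : Fin M → UN N => (V i)⁻¹ := (continuous_apply i).inv
        simpa using h2
      | mul x y hx hy =>
        have h2 : Continuous fun V : Fin M → UN N =>
          (FreeGroup.lift V x : UN N) * (FreeGroup.lift V y : UN N) := hx.mul hy
        simpa using h2
    have h2 := continuous_subtype_val.comp h1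
    have h3 : (fun V : Fin M → UN N => evV V (MonoidAlgebra.of ℂ _ g)) =
        (Subtype.val ∘ fun V : Fin M → UN N => (FreeGroup.lift V g : UN N)) := by
      funext V
      exact sac_evV_of V g
    rw [h3]
    exact h2
  | add x y hx hy =>
    have h2 : Continuous fun V : Fin M → UN N => evV V x + evV V y := hx.add hy
    simpa using h2
  | smul c x hx =>
    have h2 : Continuous fun V : Fin M → UN N => c • evV V x := hx.const_smul c
    simpa using h2

lemma sac_herm {M N : ℕ} (V : Fin M → UN N) (q : FA M) (hq : fst' q = q) :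
    (evV V q).IsHermitian := by
  have h := evV_fst V q
  rw [hq] at h
  exact h.symm

open scoped Matrix.Norms.L2Operator in
lemma sac_cont_cay {X : Type} [TopologicalSpace X] {N : ℕ} (f : X → Mt N) (hf : Continuous f)
    (hh : ∀ x, (f x).IsHermitian) : Continuous fun x => cay (f x) := by
  unfold cay
  refine (continuous_const.add (hf.const_smul Complex.I)).mul ?_
  rw [continuous_iff_continuousAt]
  intro x
  have hsa : IsSelfAdjoint (f x) := hh x
  have hu : IsUnit (1 - Complex.I • f x) := sac_isUnit (f x) hsa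
  obtain ⟨u, hu⟩ := hu
  have h1 : ContinuousAt (Ring.inverse : Mt N → Mt N) (1 - Complex.I • f x) := by
    rw [← hu]
    exact NormedRing.inverse_continuousAt u
  exact ContinuousAt.comp (f := fun x => 1 - Complex.I • f x) h1
    (continuous_const.sub (hf.const_smul Complex.I)).continuousAt

theorem continuous_imc {M N : ℕ} (q : FA M) (hq : fst' q = q) :
    Continuous fun V : Fin M → UN N => imc (evV V q) := by
  have h := sac_cont_cay (fun V : Fin M → UN N => evV V q) (sac_cont_evV q)
    (fun V => sac_herm V q hq)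
  unfold imc
  have h1 : Continuous fun V : Fin M → UN N => cay (evV V q) - star (cay (evV V q)) :=
    h.sub h.star
  exact Continuous.const_smul h1 (-(Complex.I) / 2 : ℂ)

end Pool.Agent.H710R2.GP
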