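import Mathlib
import Pool.Agent.H710R2.FF.Defs2
import Pool.Agent.H710R2.FF.Basic
import Pool.Agent.H710R2.FF.Rc
import Pool.Agent.H710R2.FF.Cay
import Pool.Agent.H710R2.GP.Defs
import Pool.Agent.H710R2.GP.LIP
import Pool.Agent.H710R2.GP.SAC
import Pool.Agent.H710R2.GP.Mom
import Pool.Agent.H710R2.FF.Apx

set_option autoImplicit false
set_option linter.unusedSectionVars false

open MeasureTheory
open scoped ComplexConjugate InnerProductSpace

noncomputable section

namespace Pool.Agent.H710R2.GP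

open Pool.Agent.H710R2.FF
open Pool.Agent.Helper278 Pool.Agent.Helper436.SN

namespace Clo

/-- the group algebra element `-(i/2) (p(q) - p(q)^*)` -/
def bb {M : ℕ} (p : Polynomial ℂ) (q : FA M) : FA M :=
  (-(Complex.I) / 2 : ℂ) • (Polynomial.aeval q p - fst' (Polynomial.aeval q p))

lemma norm_half_I : ‖(-(Complex.I) / 2 : ℂ)‖ = 1 / 2 := by
  rw [norm_div, norm_neg, Complex.norm_I]
  norm_num

lemma evV_bb {M N : ℕ} (V : Fin M → UN N) (p : Polynomial ℂ) (q : FA M) :
    evV V (bb p q) = (-(Complex.I) / 2 : ℂ) • (Polynomial.aeval (evV V q) p -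
      star (Polynomial.aeval (evV V q) p)) := by
  unfold bb
  rw [map_smul, map_sub, evV_fst, Polynomial.aeval_algHom_apply]

lemma lamA_bb {M : ℕ} (p : Polynomial ℂ) (q : FA M) :
    lamA M (bb p q) = (-(Complex.I) / 2 : ℂ) • (Polynomial.aeval (lamA M q) p -
      star (Polynomial.aeval (lamA M q) p)) := by
  unfold bb
  rw [map_smul, map_sub, lamA_fst, Polynomial.aeval_algHom_apply]

lemma opn_evV_bb {M N : ℕ} (V : Fin M → UN N) (p : Polynomial ℂ) (q : FA M) (ε : ℝ)
    (h : opn (Polynomial.aeval (evV V q) p - cay (evV V q)) ≤ ε) :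
    opn (evV V (bb p q) - imc (evV V q)) ≤ ε := by
  have e : evV V (bb p q) - imc (evV V q) = (-(Complex.I) / 2 : ℂ) •
      ((Polynomial.aeval (evV V q) p - cay (evV V q)) -
        star (Polynomial.aeval (evV V q) p - cay (evV V q))) := by
    rw [evV_bb, imc, ← smul_sub, star_sub]
    congr 1
    abel
  rw [e, opn_smul, norm_half_I]
  have h1 := opn_sub (Polynomial.aeval (evV V q) p - cay (evV V q))
    (star (Polynomial.aeval (evV V q) p - cay (evV V q)))
  rw [opn_star] at h1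
  linarith

lemma norm_lamA_bb {M : ℕ} (p : Polynomial ℂ) (q : FA M) (ε : ℝ)
    (h : ‖Polynomial.aeval (lamA M q) p - cay (lamA M q)‖ ≤ ε) :
    ‖lamA M (bb p q) - imc (lamA M q)‖ ≤ ε := by
  have e : lamA M (bb p q) - imc (lamA M q) = (-(Complex.I) / 2 : ℂ) •
      ((Polynomial.aeval (lamA M q) p - cay (lamA M q)) -
        star (Polynomial.aeval (lamA M q) p - cay (lamA M q))) := by
    rw [lamA_bb, imc, ← smul_sub, star_sub]
    congr 1
    abel
  rw [e, norm_smul, norm_half_I]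
  have h1 := norm_sub_le (Polynomial.aeval (lamA M q) p - cay (lamA M q))
    (star (Polynomial.aeval (lamA M q) p - cay (lamA M q)))
  have h2 : ‖star (Polynomial.aeval (lamA M q) p - cay (lamA M q))‖ =
      ‖Polynomial.aeval (lamA M q) p - cay (lamA M q)‖ :=
    LinearIsometryEquiv.norm_map ContinuousLinearMap.adjoint _
  rw [h2] at h1
  linarith

lemma evA_hom {A B : Type} [Ring A] [Algebra ℂ A] [Ring B] [Algebra ℂ B] {n : ℕ}
    (φ : A →ₐ[ℂ] B) (x : Fin n → A) (P : NP n) : φ (evA x P) = evA (fun i => φ (x i)) P := by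
  unfold evA
  have h : φ.comp (FreeAlgebra.lift ℂ x) = FreeAlgebra.lift ℂ (fun i => φ (x i)) := by
    ext i
    simp
  exact DFunLike.congr_fun h P

lemma cont_evA {X : Type} [TopologicalSpace X] {N n : ℕ} (f : Fin n → X → Mt N)
    (hf : ∀ i, Continuous (f i)) (P : NP n) : Continuous fun V => evA (fun i => f i V) P := by
  induction P using FreeAlgebra.induction with
  | grade0 r =>
    have : (fun V => evA (fun i => f i V) (algebraMap ℂ (NP n) r)) =
        fun _ : X => algebraMap ℂ (Mt N) r := by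
      funext V
      exact AlgHom.commutes _ r
    rw [this]
    exact continuous_const
  | grade1 i =>
    have : (fun V => evA (fun i => f i V) (FreeAlgebra.ι ℂ i)) = fun V => f i V := by
      funext V
      unfold evA
      rw [FreeAlgebra.lift_ι_apply]
    rw [this]
    exact hf i
  | mul a b ha hb =>
    simp only [map_mul]
    exact ha.mul hb
  | add a b ha hb =>
    simp only [map_add]
    exact ha.add hb

lemma nontriv (G : Type) [Group G] : Nontrivial (EllTwo G) :=
  ⟨⟨dirac G, 0, fun h => by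
    have := apx_norm_dirac (G := G)
    rw [h, norm_zero] at this
    exact zero_ne_one this⟩⟩

lemma opn_imc {M N : ℕ} (V : Fin M → UN N) (q : FA M) (hq : fst' q = q) :
    opn (imc (evV V q)) ≤ 1 := (imc_matrix _ (apx_herm V q hq)).2

lemma one (k M : ℕ) (i0 : Fin M) (q : Fin (k + 1) → FA M)
    (hq : ∀ i, fst' (q i) = q i) (P : NP (k + 1)) (ρ : ℝ) (hρ : 0 < ρ)
    (hop : n2 (leftReg (FreeGroup (Fin M)) (FreeGroup.of i0) -
        evA (fun i => imc (lamA M (q i))) P) ≤ ρ) :
    ∃ N₀ : ℕ, ∀ N ≥ N₀, ∫ V, hs2 ((V i0 : Mt N) -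
      evA (fun i => imc (evV V (q i))) P) ∂(PP (Fin M) N) ≤ (2 * ρ) ^ 2 := by
  obtain ⟨C₁, hC₁, H₁⟩ := lip_opn P
  obtain ⟨C₂, hC₂, H₂⟩ := lip_norm P
  choose R hR0 hR1 hR2 using fun i => apx_bound (q i)
  set R' : ℝ := ∑ i, R i with hR'
  have hRle : ∀ i, R i ≤ R' := fun i =>
    Finset.single_le_sum (f := R) (fun j _ => hR0 j) (Finset.mem_univ i)
  have hR'0 : 0 ≤ R' := Finset.sum_nonneg fun i _ => hR0 i
  -- the precision
  set ε : ℝ := min 1 (ρ / (8 * (1 + C₁ + C₂))) with hε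
  have hε0 : 0 < ε := lt_min one_pos (by positivity)
  have hε1 : ε ≤ 1 := min_le_left _ _
  have hε2 : ε ≤ ρ / (8 * (1 + C₁ + C₂)) := min_le_right _ _
  have hε3 : (1 + C₁ + C₂) * ε ≤ ρ / 8 := by
    have h := mul_le_mul_of_nonneg_left hε2 (by positivity : 0 ≤ 1 + C₁ + C₂)
    refine h.trans (le_of_eq ?_)
    field_simp
  have hεC₁ : C₁ * ε ≤ ρ / 8 := by nlinarith
  have hεC₂ : C₂ * ε ≤ ρ / 8 := by nlinarith
  obtain ⟨p, hp⟩ := cay_poly R' ε hR'0 hε0
  -- the operator side
  have hxs : ∀ i, IsSelfAdjoint (lamA M (q i)) := fun i => by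
    have := lamA_fst (q i)
    rw [hq i] at this
    exact this.symm
  have hL : ∀ i, ‖lamA M (bb p (q i)) - imc (lamA M (q i))‖ ≤ ε := fun i =>
    norm_lamA_bb p (q i) ε (hp _ (lamA M (q i)) (hxs i) ((hR1 i).trans (hRle i)))
  have hLi : ∀ i, ‖imc (lamA M (q i))‖ ≤ 1 := fun i =>
    (imc_props (lamA M (q i)) (lamA_mem _) (hxs i)).2.2
  have hLb : ∀ i, ‖lamA M (bb p (q i))‖ ≤ 2 := fun i => by
    have h1 := norm_add_le (lamA M (bb p (q i)) - imc (lamA M (q i))) (imc (lamA M (q i)))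
    rw [sub_add_cancel] at h1
    have h2 := hL i
    have h3 := hLi i
    linarith
  set f : FA M := MonoidAlgebra.of ℂ _ (FreeGroup.of i0) - evA (fun i => bb p (q i)) P with hf
  have hfL : n2 (lamA M f) ≤ ρ + ρ / 8 := by
    have := nontriv (FreeGroup (Fin M))
    have e1 : lamA M f = (leftReg (FreeGroup (Fin M)) (FreeGroup.of i0) -
        evA (fun i => imc (lamA M (q i))) P) +
        (evA (fun i => imc (lamA M (q i))) P - evA (fun i => lamA M (bb p (q i))) P) := by
      rw [hf, map_sub, lamA_of, evA_hom]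
      abel
    have h2 : ‖evA (fun i => imc (lamA M (q i))) P - evA (fun i => lamA M (bb p (q i))) P‖ ≤
        C₂ * ε := by
      refine H₂ _ _ _ ε hε0.le (fun i => (hLi i).trans one_le_two) hLb (fun i => ?_)
      rw [norm_sub_rev]
      exact hL i
    rw [e1]
    refine (n2_add _ _).trans (add_le_add hop ?_)
    exact ((n2_le_norm _).trans h2).trans hεC₂
  -- the matrix side
  have hV : ∀ (N : ℕ) (V : Fin M → UN N) (i : Fin (k + 1)),
      opn (evV V (bb p (q i)) - imc (evV V (q i))) ≤ ε := fun N V i =>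
    opn_evV_bb V p (q i) ε (apx_cay_poly R' ε p hp (evV V (q i)) (apx_herm V (q i) (hq i))
      ((hR2 i N V).trans (hRle i)))
  have hVb : ∀ (N : ℕ) (V : Fin M → UN N) (i : Fin (k + 1)), opn (evV V (bb p (q i))) ≤ 2 := by
    intro N V i
    have h1 := opn_add (evV V (bb p (q i)) - imc (evV V (q i))) (imc (evV V (q i)))
    rw [sub_add_cancel] at h1
    have h2 := hV N V i
    have h3 := opn_imc V (q i) (hq i)
    linarith
  have hfV : ∀ (N : ℕ) (V : Fin M → UN N),
      evV V f = (V i0 : Mt N) - evA (fun i => evV V (bb p (q i))) P := by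
    intro N V
    rw [hf, map_sub, apx_evV_of, evA_hom, FreeGroup.lift_apply_of]
  have hpt : ∀ (N : ℕ) (V : Fin M → UN N),
      hs2 ((V i0 : Mt N) - evA (fun i => imc (evV V (q i))) P) ≤
        2 * hs2 (evV V f) + 2 * (ρ / 8) ^ 2 := by
    intro N V
    have e1 : (V i0 : Mt N) - evA (fun i => imc (evV V (q i))) P = evV V f +
        (evA (fun i => evV V (bb p (q i))) P - evA (fun i => imc (evV V (q i))) P) := by
      rw [hfV]
      abel
    have h2 : opn (evA (fun i => evV V (bb p (q i))) P - evA (fun i => imc (evV V (q i))) P) ≤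
        ρ / 8 := (H₁ N _ _ ε hε0.le (hVb N V)
          (fun i => (opn_imc V (q i) (hq i)).trans one_le_two) (hV N V)).trans hεC₁
    have h3 := sqrt_hs2_add (evV V f)
      (evA (fun i => evV V (bb p (q i))) P - evA (fun i => imc (evV V (q i))) P)
    rw [← e1] at h3
    have h4 : √(hs2 (evA (fun i => evV V (bb p (q i))) P -
        evA (fun i => imc (evV V (q i))) P)) ≤ ρ / 8 := by
      rw [Real.sqrt_le_left (by positivity)]
      refine (hs2_le_opn _).trans ?_
      exact pow_le_pow_left₀ (opn_nonneg _) h2 2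
    have h5 := Real.sq_sqrt (hs2_nonneg ((V i0 : Mt N) - evA (fun i => imc (evV V (q i))) P))
    have h6 := Real.sq_sqrt (hs2_nonneg (evV V f))
    have h7 := Real.sqrt_nonneg (hs2 ((V i0 : Mt N) - evA (fun i => imc (evV V (q i))) P))
    have h8 := Real.sqrt_nonneg (hs2 (evV V f))
    nlinarith [sq_nonneg (√(hs2 (evV V f)) - ρ / 8)]
  -- the moment
  obtain ⟨C₃, hC₃, H₃⟩ := mom (fst' f * f)
  have htau : tau (fst' f * f) = ((n2 (lamA M f) ^ 2 : ℝ) : ℂ) := by
    rw [n2_sq, ← tr_lamA, map_mul, lamA_fst]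
  obtain ⟨N₁, hN₁⟩ := exists_nat_gt (C₃ / (ρ ^ 2 / 2))
  refine ⟨N₁ + 1, fun N hN => ?_⟩
  have hN0 : 0 < N := by omega
  have hcf : Continuous fun V : Fin M → UN N => hs2 (evV V f) :=
    continuous_hs2.comp (apx_cont_evV f)
  have hcg : Continuous fun V : Fin M → UN N =>
      hs2 ((V i0 : Mt N) - evA (fun i => imc (evV V (q i))) P) := by
    refine continuous_hs2.comp (Continuous.sub ?_ ?_)
    · exact continuous_subtype_val.comp (continuous_apply i0)
    · exact cont_evA (fun i V => imc (evV V (q i))) (fun i => continuous_imc (q i) (hq i)) P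
  have hEf : ∫ V, hs2 (evV V f) ∂(PP (Fin M) N) ≤ (ρ + ρ / 8) ^ 2 + ρ ^ 2 / 2 := by
    have h1 := H₃ N hN0
    have h2 : (∫ V, ntr (evV V (fst' f * f)) ∂(PP (Fin M) N)) =
        ((∫ V, hs2 (evV V f) ∂(PP (Fin M) N) : ℝ) : ℂ) := by
      rw [← integral_complex_ofReal]
      refine integral_congr_ae (Filter.Eventually.of_forall fun V => ?_)
      show ntr (evV V (fst' f * f)) = ((hs2 (evV V f) : ℝ) : ℂ)
      rw [hs2_eq, map_mul, evV_fst]
    rw [h2, htau, ← Complex.ofReal_sub, Complex.norm_real, Real.norm_eq_abs] at h1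
    have h3 := (le_abs_self _).trans h1
    have h4 : n2 (lamA M f) ^ 2 ≤ (ρ + ρ / 8) ^ 2 := pow_le_pow_left₀ (n2_nonneg _) hfL 2
    have h5 : C₃ / N ≤ ρ ^ 2 / 2 := by
      have hNr : (0 : ℝ) < N := by exact_mod_cast hN0
      rw [div_le_iff₀ hNr]
      rw [div_lt_iff₀ (by positivity)] at hN₁
      have hNN : (N₁ : ℝ) ≤ N := by exact_mod_cast (by omega : N₁ ≤ N)
      nlinarith [hN₁, hNN, sq_nonneg ρ]
    linarith
  calc ∫ V, hs2 ((V i0 : Mt N) - evA (fun i => imc (evV V (q i))) P) ∂(PP (Fin M) N)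
      ≤ ∫ V, (2 * hs2 (evV V f) + 2 * (ρ / 8) ^ 2) ∂(PP (Fin M) N) :=
        integral_mono (integrable_cont hcg)
          (((integrable_cont hcf).const_mul 2).add (integrable_const _)) (hpt N)
    _ = 2 * (∫ V, hs2 (evV V f) ∂(PP (Fin M) N)) + 2 * (ρ / 8) ^ 2 := by
        rw [integral_add ((integrable_cont hcf).const_mul 2) (integrable_const _),
          integral_const_mul, integral_const]
        simp
    _ ≤ (2 * ρ) ^ 2 := by nlinarith [sq_nonneg ρ]

end Clo

theorem closeness {k m M : ℕ} (e : Fin m → Fin M) (q : Fin (k + 1) → FA M)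
    (hq : ∀ i, fst' (q i) = q i) (P : Fin m → NP (k + 1)) (ρ : ℝ) (hρ : 0 < ρ)
    (hop : ∀ j, n2 (leftReg (FreeGroup (Fin M)) (FreeGroup.of (e j)) -
        evA (fun i => imc (lamA M (q i))) (P j)) ≤ ρ) :
    ∃ N₀ : ℕ, ∀ N ≥ N₀, ∀ j, ∫ V, hs2 ((V (e j) : Mt N) -
      evA (fun i => imc (evV V (q i))) (P j)) ∂(PP (Fin M) N) ≤ (2 * ρ) ^ 2 := by
  choose N₀ hN₀ using fun j => Clo.one k M (e j) q hq (P j) ρ hρ (hop j)
  refine ⟨Finset.univ.sup N₀, fun N hN j => hN₀ j N ?_⟩
  exact (Finset.le_sup (Finset.mem_univ j)).trans hN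

end Pool.Agent.H710R2.GP
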