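import Mathlib
import Pool.Agent.H710R2.FF.Defs2
import Pool.Agent.H710R2.FF.Basic
import Pool.Agent.H710R2.FF.Rc
import Pool.Agent.H710R2.FF.Cay
import Pool.Agent.H710R2.GP.Defs
import Pool.Agent.H710R2.FF.Bl
import Pool.Agent.H710R2.FF.Lat

set_option autoImplicit false
set_option linter.unusedSectionVars false

open MeasureTheory
open scoped ComplexConjugate InnerProductSpace

noncomputable section

namespace Pool.Agent.H710R2.GP

open Pool.Agent.H710R2.FF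
open Pool.Agent.Helper278 Pool.Agent.Helper436.SN

/-! ### NET: nets of matrices -/

theorem net_ball_meas {N : ℕ} (U0 : UN N) (t : ℝ) :
    MeasurableSet {U : UN N | hs2 ((U : Mt N) - (U0 : Mt N)) ≤ t} := by
  apply IsClosed.measurableSet
  refine isClosed_le ?_ continuous_const
  exact continuous_hs2.comp (continuous_subtype_val.sub continuous_const)

theorem net_ball_eq {N : ℕ} (U0 : UN N) (t : ℝ) :
    (mu N).real {U : UN N | hs2 ((U : Mt N) - (U0 : Mt N)) ≤ t} =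
      (mu N).real {U : UN N | hs2 ((U : Mt N) - 1) ≤ t} := by
  have h : {U : UN N | hs2 ((U : Mt N) - (U0 : Mt N)) ≤ t} =
      (fun h => U0⁻¹ * h) ⁻¹' {U : UN N | hs2 ((U : Mt N) - 1) ≤ t} := by
    ext U
    simp only [Set.mem_ofPred_eq, Set.mem_preimage]
    have h1 : ((U0⁻¹ * U : UN N) : Mt N) - 1 =
        ((U0⁻¹ : UN N) : Mt N) * ((U : Mt N) - (U0 : Mt N)) := by
      have h2 : ((U0⁻¹ : UN N) : Mt N) * (U0 : Mt N) = 1 := by
        have : ((U0⁻¹ * U0 : UN N) : Mt N) = 1 := by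
          rw [inv_mul_cancel]
          rfl
        exact this
      rw [mul_sub, h2]
      rfl
    rw [h1, hs2_unitary_mul]
  rw [h]
  unfold Measure.real
  rw [measure_preimage_mul]

theorem net_sqrt_self {N : ℕ} (U : Mt N) : √(hs2 (U - U)) = 0 := by
  rw [sub_self, hs2_zero, Real.sqrt_zero]

theorem net_sym {N : ℕ} (U V : Mt N) : hs2 (U - V) = hs2 (V - U) := by
  have h : U - V = (-1 : ℂ) • (V - U) := by
    rw [neg_smul, one_smul, neg_sub]
  rw [h, hs2_smul]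
  simp

theorem net_tri {N : ℕ} (U V W : Mt N) : √(hs2 (U - W)) ≤ √(hs2 (U - V)) + √(hs2 (V - W)) := by
  have h : U - W = (U - V) + (V - W) := by abel
  rw [h]
  exact sqrt_hs2_add _ _

theorem net_sqrt_le {N : ℕ} {X : Mt N} {a : ℝ} (ha : 0 ≤ a) (h : hs2 X ≤ a ^ 2) :
    √(hs2 X) ≤ a := by
  rw [← Real.sqrt_sq ha]
  exact Real.sqrt_le_sqrt h

theorem net_of_sqrt_le {N : ℕ} {X : Mt N} {a : ℝ} (h : √(hs2 X) ≤ a) :
    hs2 X ≤ a ^ 2 := by
  have h1 := Real.sq_sqrt (hs2_nonneg X)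
  rw [← h1]
  exact pow_le_pow_left₀ (Real.sqrt_nonneg _) h 2

/-- separated sets are small -/
theorem net_card {N : ℕ} {r b : ℝ} (hr : 0 < r)
    (hb : b ≤ (mu N).real {U : UN N | hs2 ((U : Mt N) - 1) ≤ (r / 4) ^ 2}) (s : Finset (UN N))
    (hs : ∀ U ∈ s, ∀ V ∈ s, U ≠ V → r / 2 < √(hs2 ((U : Mt N) - (V : Mt N)))) :
    (s.card : ℝ) * b ≤ 1 := by
  have hdis : (s : Set (UN N)).PairwiseDisjoint
      (fun U0 => {U : UN N | hs2 ((U : Mt N) - (U0 : Mt N)) ≤ (r / 4) ^ 2}) := by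
    intro U hU V hV hne
    rw [Function.onFun, Set.disjoint_left]
    intro W hW1 hW2
    have h1 := hs U hU V hV hne
    have h2 : √(hs2 ((W : Mt N) - (U : Mt N))) ≤ r / 4 := net_sqrt_le (by positivity) hW1
    have h3 : √(hs2 ((W : Mt N) - (V : Mt N))) ≤ r / 4 := net_sqrt_le (by positivity) hW2
    have h4 := net_tri (U : Mt N) (W : Mt N) (V : Mt N)
    rw [net_sym (U : Mt N) (W : Mt N)] at h4
    linarith
  have h1 := measureReal_biUnion_finset (μ := mu N) hdis (fun U0 _ => net_ball_meas U0 _)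
  have h2 : (mu N).real (⋃ U0 ∈ s, {U : UN N | hs2 ((U : Mt N) - (U0 : Mt N)) ≤ (r / 4) ^ 2}) ≤
      1 := measureReal_le_one
  rw [h1, Finset.sum_congr rfl (fun U0 _ => net_ball_eq U0 _), Finset.sum_const,
    nsmul_eq_mul] at h2
  calc (s.card : ℝ) * b ≤ _ := mul_le_mul_of_nonneg_left hb (Nat.cast_nonneg _)
    _ ≤ 1 := h2

theorem net_exists {N : ℕ} {r b : ℝ} (hr : 0 < r) (hb0 : 0 < b)
    (hb : b ≤ (mu N).real {U : UN N | hs2 ((U : Mt N) - 1) ≤ (r / 4) ^ 2}) :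
    ∃ s : Finset (UN N), (∀ U ∈ s, ∀ V ∈ s, U ≠ V → r / 2 < √(hs2 ((U : Mt N) - (V : Mt N)))) ∧
      ∀ U : UN N, ∃ V ∈ s, √(hs2 ((U : Mt N) - (V : Mt N))) ≤ r / 2 := by
  classical
  by_contra hcon
  push Not at hcon
  have hall : ∀ n : ℕ, ∃ s : Finset (UN N), s.card = n ∧
      ∀ U ∈ s, ∀ V ∈ s, U ≠ V → r / 2 < √(hs2 ((U : Mt N) - (V : Mt N))) := by
    intro n
    induction n with
    | zero => exact ⟨∅, rfl, by simp⟩
    | succ n ih =>
      obtain ⟨s, hs, hsep⟩ := ih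
      obtain ⟨U, hU⟩ := hcon s hsep
      have hUs : U ∉ s := by
        intro h
        have := hU U h
        rw [net_sqrt_self] at this
        linarith
      refine ⟨insert U s, by rw [Finset.card_insert_of_notMem hUs, hs], ?_⟩
      intro V hV W hW hne
      rw [Finset.mem_insert] at hV hW
      rcases hV with rfl | hV <;> rcases hW with rfl | hW
      · exact absurd rfl hne
      · exact hU W hW
      · rw [net_sym]
        exact hU V hV
      · exact hsep V hV W hW hne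
  obtain ⟨n, hn⟩ := exists_nat_gt (1 / b)
  obtain ⟨s, hs, hsep⟩ := hall n
  have h1 := net_card hr hb s hsep
  rw [hs] at h1
  rw [div_lt_iff₀ hb0] at hn
  linarith

theorem net_U : ∃ C : ℝ, 1 ≤ C ∧ ∀ N : ℕ, 0 < N → ∀ r : ℝ, 0 < r → r ≤ 1 →
    ∃ (K : ℕ) (c : UN N → Fin K), (K : ℝ) ≤ (C / r) ^ (N ^ 2) ∧
      ∀ U U' : UN N, c U = c U' → hs2 ((U : Mt N) - (U' : Mt N)) ≤ r ^ 2 := by
  classical
  obtain ⟨c, hc, hball⟩ := ball_lower
  refine ⟨max 1 (4 / c), le_max_left _ _, ?_⟩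
  intro N hN r hr hr1
  have hb := hball N hN (r / 4) (by positivity) (by linarith)
  have hb0 : 0 < (c * (r / 4)) ^ (N ^ 2) := by positivity
  obtain ⟨s, hsep, hcov⟩ := net_exists hr hb0 hb
  choose V hV hVd using hcov
  refine ⟨s.card, fun U => s.equivFin ⟨V U, hV U⟩, ?_, ?_⟩
  · have h1 := net_card hr hb s hsep
    calc (s.card : ℝ) ≤ 1 / (c * (r / 4)) ^ (N ^ 2) := by
          rw [le_div_iff₀ hb0]
          exact h1
      _ = ((4 / c) / r) ^ (N ^ 2) := by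
          rw [← one_div_pow]
          congr 1
          field_simp
      _ ≤ (max 1 (4 / c) / r) ^ (N ^ 2) := by
          apply pow_le_pow_left₀ (by positivity)
          exact div_le_div_of_nonneg_right (le_max_right _ _) hr.le
  · intro U U' h
    have h1 : V U = V U' := by
      have := s.equivFin.injective h
      exact congrArg Subtype.val this
    have h2 := hVd U
    have h3 := hVd U'
    rw [← h1, net_sym] at h3
    apply net_of_sqrt_le
    have h4 := net_tri (U : Mt N) (V U : Mt N) (U' : Mt N)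
    linarith

theorem net_H : ∃ C : ℝ, 1 ≤ C ∧ ∀ N : ℕ, 0 < N → ∀ r : ℝ, 0 < r → r ≤ 1 →
    ∃ (K : ℕ) (c : Mt N → Fin K), (K : ℝ) ≤ (C / r) ^ (N ^ 2) ∧
      ∀ A B : Mt N, A.IsHermitian → B.IsHermitian → opn A ≤ 1 → opn B ≤ 1 → c A = c B →
        hs2 (A - B) ≤ r ^ 2 := by
  classical
  obtain ⟨C, hC, hnet⟩ := net_U
  refine ⟨4 * C, by linarith, ?_⟩
  intro N hN r hr hr1
  obtain ⟨K, c, hK, hc⟩ := hnet N hN (r / 4) (by positivity) (by linarith)
  refine ⟨K, fun A => if h : A.IsHermitian then c ⟨cay A, cay_mem A h⟩ else c 1, ?_, ?_⟩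
  · have h1 : C / (r / 4) = 4 * C / r := by field_simp
    rw [← h1]
    exact hK
  · intro A B hA hB hA1 hB1 h
    simp only [dif_pos hA, dif_pos hB] at h
    have h1 := hc _ _ h
    have h2 := cay_lower A B hA hB 1 hA1 hB1
    calc hs2 (A - B) ≤ (1 + 1) ^ 4 * hs2 (cay A - cay B) := h2
      _ ≤ (1 + 1) ^ 4 * (r / 4) ^ 2 := mul_le_mul_of_nonneg_left h1 (by norm_num)
      _ = r ^ 2 := by ring

theorem net_D (δ : ℝ) (hδ : 0 < δ) : ∃ C : ℝ, 1 ≤ C ∧ ∀ N : ℕ,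
    ∃ (K : ℕ) (c : (Fin N → ℝ) → Fin K), (K : ℝ) ≤ C ^ N ∧
      ∀ d d' : Fin N → ℝ, (∀ i, |d i| ≤ 1) → (∀ i, |d' i| ≤ 1) → c d = c d' →
        ∀ i, |d i - d' i| ≤ δ := by
  classical
  obtain ⟨n0, hn0⟩ := exists_nat_ge (1 / δ)
  refine ⟨2 * n0 + 1, by have : (0 : ℝ) ≤ n0 := Nat.cast_nonneg _; linarith, ?_⟩
  intro N
  let g : ℝ → Fin (2 * n0 + 1) := fun x => ⟨min (⌊x / δ⌋ + n0).toNat (2 * n0), by omega⟩
  have hg : ∀ x x' : ℝ, |x| ≤ 1 → |x'| ≤ 1 → g x = g x' → |x - x'| ≤ δ := by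
    have hbd : ∀ x : ℝ, |x| ≤ 1 → -(n0 : ℤ) ≤ ⌊x / δ⌋ ∧ ⌊x / δ⌋ ≤ n0 := by
      intro x hx
      have hx' := abs_le.1 hx
      have h1 : x / δ ≤ 1 / δ := div_le_div_of_nonneg_right hx'.2 hδ.le
      have h2 : -(1 / δ) ≤ x / δ := by
        rw [← neg_div]
        exact div_le_div_of_nonneg_right hx'.1 hδ.le
      constructor
      · rw [Int.le_floor]
        push_cast
        linarith
      · have h3 : (⌊x / δ⌋ : ℝ) ≤ n0 := (Int.floor_le _).trans (h1.trans hn0)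
        exact_mod_cast h3
    intro x x' hx hx' h
    have e := congrArg Fin.val h
    simp only [g] at e
    obtain ⟨a1, a2⟩ := hbd x hx
    obtain ⟨b1, b2⟩ := hbd x' hx'
    have h1 : ⌊x / δ⌋ = ⌊x' / δ⌋ := by omega
    have h2 := Int.abs_sub_lt_one_of_floor_eq_floor h1
    rw [← sub_div, abs_div, abs_of_pos hδ, div_lt_one hδ] at h2
    exact h2.le
  refine ⟨Fintype.card (Fin N → Fin (2 * n0 + 1)),
    fun d => Fintype.equivFin (Fin N → Fin (2 * n0 + 1)) (fun i => g (d i)), ?_, ?_⟩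
  · rw [Fintype.card_fun, Fintype.card_fin, Fintype.card_fin]
    push_cast
    exact le_rfl
  · intro d d' hd hd' h i
    have h1 := (Fintype.equivFin (Fin N → Fin (2 * n0 + 1))).injective h
    exact hg _ _ (hd i) (hd' i) (congrFun h1 i)

end Pool.Agent.H710R2.GP
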