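import Mathlib
import Pool.Agent.H710R2.FF.Defs2
import Pool.Agent.H710R2.FF.Basic
import Pool.Agent.H710R2.FF.Rc
import Pool.Agent.H710R2.FF.Cay
import Pool.Agent.H710R2.GP.Defs
import Pool.Agent.H710R2.GP.LIP
import Pool.Agent.H710R2.GP.SAC

set_option autoImplicit false
set_option linter.unusedSectionVars false

open MeasureTheory
open scoped ComplexConjugate InnerProductSpace

noncomputable section

namespace Pool.Agent.H710R2.GP

open Pool.Agent.H710R2.FF
open Pool.Agent.Helper278 Pool.Agent.Helper436.SN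

section OPR

variable {G : Type} [Group G]

/-- basis vector -/
def OPR_dl (g : G) : EllTwo G := open Classical in lp.single 2 g (1 : ℂ)

theorem OPR_dirac_eq : dirac G = OPR_dl (1 : G) := rfl

theorem OPR_dl_self (g : G) : (OPR_dl g : EllTwo G) g = 1 := by
  classical
  unfold OPR_dl
  rw [lp.single_apply_self]

theorem OPR_dl_ne {g h : G} (hh : h ≠ g) : (OPR_dl g : EllTwo G) h = 0 := by
  classical
  unfold OPR_dl
  rw [lp.single_apply_ne _ _ _ hh]

theorem OPR_inner_dl (g : G) (f : EllTwo G) : ⟪OPR_dl g, f⟫_ℂ = f g := by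
  classical
  unfold OPR_dl
  rw [lp.inner_single_left]
  simp

theorem OPR_single_eq_smul_dl [DecidableEq G] (g : G) (c : ℂ) :
    (lp.single 2 g c : EllTwo G) = c • OPR_dl g := by
  ext k
  rw [lp.coeFn_smul, Pi.smul_apply]
  by_cases hk : k = g
  · subst hk
    rw [lp.single_apply_self, OPR_dl_self, smul_eq_mul, mul_one]
  · rw [lp.single_apply_ne _ _ _ hk, OPR_dl_ne hk, smul_zero]

theorem OPR_permOp_dl (e : G ≃ G) (g : G) : permOp e (OPR_dl g) = OPR_dl (e.symm g) := by
  ext h
  rw [permOp_apply]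
  by_cases hh : e h = g
  · subst hh
    rw [e.symm_apply_apply, OPR_dl_self, OPR_dl_self]
  · rw [OPR_dl_ne hh, OPR_dl_ne]
    intro h2
    apply hh
    rw [h2, e.apply_symm_apply]

theorem OPR_rightReg_dl (g h : G) : rightReg G g (OPR_dl h) = OPR_dl (h * g⁻¹) := by
  unfold rightReg
  rw [OPR_permOp_dl]
  rfl

theorem OPR_leftReg_dl (g h : G) : leftReg G g (OPR_dl h) = OPR_dl (g * h) := by
  unfold leftReg
  rw [OPR_permOp_dl]
  congr 1
  show (g⁻¹)⁻¹ * h = g * h
  rw [inv_inv]

theorem OPR_RC_zero : (0 : EllTwo G →L[ℂ] EllTwo G) ∈ RC G := by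
  intro g
  rw [zero_mul, mul_zero]

theorem OPR_RC_apply_dl {x : EllTwo G →L[ℂ] EllTwo G} (hx : x ∈ RC G) (h g : G) :
    (x (OPR_dl h) : EllTwo G) g = (x (dirac G) : EllTwo G) (g * h⁻¹) := by
  have h1 : (OPR_dl h : EllTwo G) = rightReg G h⁻¹ (dirac G) := by
    rw [OPR_dirac_eq, OPR_rightReg_dl, inv_inv, one_mul]
  have h2 := congrArg (fun z : EllTwo G →L[ℂ] EllTwo G => z (dirac G)) (hx h⁻¹)
  have h3 : x (rightReg G h⁻¹ (dirac G)) = rightReg G h⁻¹ (x (dirac G)) := h2
  rw [h1, h3]
  rfl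

theorem OPR_star_coef {x : EllTwo G →L[ℂ] EllTwo G} (hx : x ∈ RC G) (g : G) :
    (star x (dirac G) : EllTwo G) g = conj ((x (dirac G) : EllTwo G) g⁻¹) := by
  rw [← OPR_inner_dl g, ContinuousLinearMap.star_eq_adjoint,
    ContinuousLinearMap.adjoint_inner_right,
    ← inner_conj_symm, OPR_dirac_eq, OPR_inner_dl, OPR_RC_apply_dl hx, one_mul, OPR_dirac_eq]

theorem OPR_lamG_single (g : G) (c : ℂ) :
    lamG G (MonoidAlgebra.single g c) = c • leftReg G g := by
  unfold lamG
  rw [MonoidAlgebra.lift_single]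
  rfl

theorem lamG_mem (b : MonoidAlgebra ℂ G) : lamG G b ∈ RC G := by
  induction b using MonoidAlgebra.induction_linear with
  | zero => rw [map_zero]; exact OPR_RC_zero
  | add x y hx hy => rw [map_add]; exact RC_add hx hy
  | single g c => rw [OPR_lamG_single]; exact RC_smul c (RC_leftReg g)

theorem OPR_fstG_zero : fstG (0 : MonoidAlgebra ℂ G) = 0 := by
  unfold fstG
  rw [MonoidAlgebra.coeff_zero, Finsupp.sum_zero_index]

theorem OPR_fstG_add (x y : MonoidAlgebra ℂ G) : fstG (x + y) = fstG x + fstG y := by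
  unfold fstG
  rw [MonoidAlgebra.coeff_add, Finsupp.sum_add_index']
  · intro g
    rw [map_zero, MonoidAlgebra.single_zero]
  · intro g a b
    rw [map_add, MonoidAlgebra.single_add]

theorem OPR_fstG_single (g : G) (c : ℂ) :
    fstG (MonoidAlgebra.single g c : MonoidAlgebra ℂ G) = MonoidAlgebra.single g⁻¹ (conj c) := by
  unfold fstG
  rw [MonoidAlgebra.coeff_single, Finsupp.sum_single_index]
  rw [map_zero, MonoidAlgebra.single_zero]

theorem OPR_fstG_sum {α : Type} (s : Finset α) (f : α → MonoidAlgebra ℂ G) :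
    fstG (∑ i ∈ s, f i) = ∑ i ∈ s, fstG (f i) := by
  classical
  induction s using Finset.induction_on with
  | empty => rw [Finset.sum_empty, Finset.sum_empty, OPR_fstG_zero]
  | insert a s ha ih => rw [Finset.sum_insert ha, Finset.sum_insert ha, OPR_fstG_add, ih]

theorem lamG_star (b : MonoidAlgebra ℂ G) : lamG G (fstG b) = star (lamG G b) := by
  induction b using MonoidAlgebra.induction_linear with
  | zero => rw [OPR_fstG_zero, map_zero, star_zero]
  | add x y hx hy => rw [OPR_fstG_add, map_add, map_add, star_add, hx, hy]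
  | single g c =>
    rw [OPR_fstG_single, OPR_lamG_single, OPR_lamG_single, star_smul, star_leftReg]
    rfl

theorem OPR_lamG_sum_dirac (S : Finset G) (c : G → ℂ) :
    lamG G (∑ g ∈ S, MonoidAlgebra.single g (c g)) (dirac G) = ∑ g ∈ S, c g • OPR_dl g := by
  rw [map_sum, sum_apply]
  refine Finset.sum_congr rfl ?_
  intro g _
  rw [OPR_lamG_single, smul_apply, OPR_dirac_eq, OPR_leftReg_dl, mul_one]

/-- finitely supported approximation in the 2-norm of a self-adjoint element -/
theorem OPR_exists_fin_approx {h : EllTwo G →L[ℂ] EllTwo G}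
    (hh : h ∈ RC G) (hs : IsSelfAdjoint h) (η : ℝ) (hη : 0 < η) :
    ∃ q : MonoidAlgebra ℂ G, fstG q = q ∧ n2 (lamG G q - h) ≤ η := by
  classical
  have hsym : ∀ g, conj ((h (dirac _) : EllTwo G) g) =
      (h (dirac _) : EllTwo G) g⁻¹ := by
    intro g
    have h1 := OPR_star_coef hh g⁻¹
    rw [hs.star_eq, inv_inv] at h1
    exact h1.symm
  have h1 := lp.hasSum_single (E := fun _ : G => ℂ) (p := 2) (by norm_num)
    (h (dirac _))
  rw [HasSum, SummationFilter.unconditional_filter, Metric.tendsto_atTop] at h1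
  obtain ⟨S0, hS0⟩ := h1 η hη
  refine ⟨∑ g ∈ S0 ∪ S0.map (Equiv.inv _).toEmbedding,
    MonoidAlgebra.single g ((h (dirac _) : EllTwo G) g), ?_, ?_⟩
  · rw [OPR_fstG_sum]
    refine Finset.sum_bij (fun g _ => g⁻¹) ?_ ?_ ?_ ?_
    · intro g hg
      rw [Finset.mem_union] at hg ⊢
      rcases hg with hg | hg
      · right
        rw [Finset.mem_map]
        exact ⟨g, hg, rfl⟩
      · left
        rw [Finset.mem_map] at hg
        obtain ⟨k, hk, rfl⟩ := hg
        show (k⁻¹)⁻¹ ∈ S0
        rw [inv_inv]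
        exact hk
    · intro a _ b _ hab
      exact inv_injective hab
    · intro g hg
      refine ⟨g⁻¹, ?_, inv_inv g⟩
      rw [Finset.mem_union] at hg ⊢
      rcases hg with hg | hg
      · right
        rw [Finset.mem_map]
        exact ⟨g, hg, rfl⟩
      · left
        rw [Finset.mem_map] at hg
        obtain ⟨k, hk, rfl⟩ := hg
        show (k⁻¹)⁻¹ ∈ S0
        rw [inv_inv]
        exact hk
    · intro g _
      rw [OPR_fstG_single, hsym]
  · have h2 := hS0 (S0 ∪ S0.map (Equiv.inv _).toEmbedding) Finset.subset_union_left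
    rw [dist_eq_norm] at h2
    unfold FF.n2
    rw [sub_apply, OPR_lamG_sum_dirac]
    refine le_of_eq_of_le ?_ h2.le
    congr 2
    refine Finset.sum_congr rfl ?_
    intro g _
    exact (OPR_single_eq_smul_dl g _).symm

end OPR

theorem approx_G {G : Type} [Group G] {k m : ℕ} (a : Fin (k + 1) → EllTwo G →L[ℂ] EllTwo G)
    (ha : ∀ i, a i ∈ RC G) (hs : ∀ i, IsSelfAdjoint (a i)) (hn : ∀ i, ‖a i‖ ≤ 1)
    (P : Fin m → NP (k + 1)) (η : ℝ) (hη : 0 < η) :
    ∃ q : Fin (k + 1) → MonoidAlgebra ℂ G, (∀ i, fstG (q i) = q i) ∧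
      ∀ j, n2 (evA (fun i => imc (lamG G (q i))) (P j) - evA a (P j)) ≤ η := by
  choose y hy1 hy2 hy3 hy4 using fun i => exists_imc (a i) (ha i) (hs i) (hn i)
  choose C hC0 hC using fun j => lip_n2 (P j)
  set K : ℝ := ∑ j, C j + 1 with hK
  have hCs : 0 ≤ ∑ j, C j := Finset.sum_nonneg fun j _ => hC0 j
  have hKpos : 0 < K := by rw [hK]; linarith
  have hCK : ∀ j, C j ≤ K := by
    intro j
    have := Finset.single_le_sum (f := C) (fun j _ => hC0 j) (Finset.mem_univ j)
    rw [hK]; linarith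
  have hε : 0 < η / (2 * K) := by positivity
  choose q hq1 hq2 using fun i => OPR_exists_fin_approx (hy1 i) (hy2 i) (η / (2 * K)) hε
  refine ⟨q, hq1, ?_⟩
  intro j
  have hqs : ∀ i, IsSelfAdjoint (lamG G (q i)) := by
    intro i
    show star (lamG G (q i)) = lamG G (q i)
    rw [← lamG_star, hq1 i]
  have hp : ∀ i, imc (lamG G (q i)) ∈ RC G ∧ IsSelfAdjoint (imc (lamG G (q i))) ∧
      ‖imc (lamG G (q i))‖ ≤ 1 := fun i => imc_props _ (lamG_mem (q i)) (hqs i)
  have hd : ∀ i, n2 (imc (lamG G (q i)) - a i) ≤ η / K := by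
    intro i
    rw [← hy4 i]
    refine (imc_lip _ _ (lamG_mem (q i)) (hy1 i) (hqs i) (hy2 i)).trans ?_
    have h1 := hq2 i
    have h2 : η / K = 2 * (η / (2 * K)) := by field_simp
    rw [h2]
    linarith
  have hmain := hC j G (fun i => imc (lamG G (q i))) a (η / K) (by positivity)
    (fun i => (hp i).1) ha (fun i => by linarith [(hp i).2.2]) (fun i => by linarith [hn i]) hd
  refine hmain.trans ?_
  have h3 : C j * (η / K) ≤ K * (η / K) := by
    have := hCK j
    have h4 : 0 ≤ η / K := by positivity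
    exact mul_le_mul_of_nonneg_right this h4
  have h5 : K * (η / K) = η := by field_simp
  linarith

end Pool.Agent.H710R2.GP
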