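import Mathlib
import Pool.Agent.H710R2.FF.Defs2
import Pool.Agent.H710R2.FF.Basic
import Pool.Agent.H710R2.FF.Rc
import Pool.Agent.H710R2.FF.Cay
import Pool.Agent.H710R2.GP.Defs

/-!
# Task VOL: the volume inequality (helper93)
-/

set_option autoImplicit false
set_option linter.unusedSectionVars false

open MeasureTheory
open scoped ComplexConjugate InnerProductSpace Matrix

noncomputable section

namespace Pool.Agent.H710R2.GP

open Pool.Agent.H710R2.FF
open Pool.Agent.Helper278 Pool.Agent.Helper436.SN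

section VOL

variable {N : ℕ}

theorem VOL_star_mul (W : UN N) : star (W : Mt N) * (W : Mt N) = 1 :=
  Matrix.mem_unitaryGroup_iff'.mp W.2

theorem VOL_mul_star (W : UN N) : (W : Mt N) * star (W : Mt N) = 1 :=
  Matrix.mem_unitaryGroup_iff.mp W.2

theorem VOL_conj_ev (W : UN N) {n : ℕ} (X : Fin n → Mt N) (P : NP n) :
    evA (fun i => (W : Mt N) * X i * star (W : Mt N)) P =
      (W : Mt N) * evA X P * star (W : Mt N) := by
  have h1 := VOL_star_mul W
  have h2 := VOL_mul_star W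
  induction P using FreeAlgebra.induction with
  | grade0 r =>
    rw [AlgHom.commutes, AlgHom.commutes, Algebra.algebraMap_eq_smul_one, Matrix.mul_smul,
      Matrix.smul_mul, mul_one, h2]
  | grade1 x => simp [evA, FreeAlgebra.lift_ι_apply]
  | mul a b ha hb =>
    rw [map_mul, map_mul, ha, hb]
    calc (W : Mt N) * evA X a * star (W : Mt N) * ((W : Mt N) * evA X b * star (W : Mt N))
        = (W : Mt N) * evA X a * (star (W : Mt N) * (W : Mt N)) * evA X b * star (W : Mt N) := by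
          simp only [mul_assoc]
      _ = _ := by rw [h1, mul_one]; simp only [mul_assoc]
  | add a b ha hb => rw [map_add, map_add, ha, hb, mul_add, add_mul]

/-- spectral theorem -/
theorem VOL_spectral (A : Mt N) (hA : A.IsHermitian) (hn : opn A ≤ 1) :
    ∃ (W : UN N) (d : Fin N → ℝ), (∀ i, |d i| ≤ 1) ∧
      star (W : Mt N) * A * (W : Mt N) = Matrix.diagonal (fun i => (d i : ℂ)) := by
  refine ⟨hA.eigenvectorUnitary, hA.eigenvalues, ?_, ?_⟩
  · have h := hA.conjStarAlgAut_star_eigenvectorUnitary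
    rw [Unitary.conjStarAlgAut_apply] at h
    intro i
    open scoped Matrix.Norms.L2Operator in
    have h1 : ‖(Matrix.diagonal (RCLike.ofReal ∘ hA.eigenvalues) : Mt N)‖ ≤ 1 := by
      rw [← h]
      refine le_trans (opn_mul _ _) ?_
      have e1 : opn ((star (hA.eigenvectorUnitary) : UN N) : Mt N) ≤ 1 := opn_unitary _
      have e2 : opn (star ((star (hA.eigenvectorUnitary) : UN N) : Mt N)) ≤ 1 := by
        rw [opn_star]; exact e1
      have e3 := opn_mul ((star (hA.eigenvectorUnitary) : UN N) : Mt N) A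
      have e4 := opn_nonneg A
      have e5 := opn_nonneg ((star (hA.eigenvectorUnitary) : UN N) : Mt N)
      have e6 := opn_nonneg (star ((star (hA.eigenvectorUnitary) : UN N) : Mt N))
      have e7 : opn (((star (hA.eigenvectorUnitary) : UN N) : Mt N) * A) ≤ 1 :=
        le_trans e3 (mul_le_one₀ e1 e4 hn)
      exact mul_le_one₀ e7 e6 e2
    rw [Matrix.l2_opNorm_diagonal] at h1
    have h2 := norm_le_pi_norm (RCLike.ofReal ∘ hA.eigenvalues : Fin N → ℂ) i
    have h3 : ‖(RCLike.ofReal ∘ hA.eigenvalues : Fin N → ℂ) i‖ = |hA.eigenvalues i| := by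
      simp
    rw [← h3]
    exact le_trans h2 h1
  · have h := hA.conjStarAlgAut_star_eigenvectorUnitary
    rw [Unitary.conjStarAlgAut_apply] at h
    rw [Unitary.coe_star, star_star] at h
    exact h

theorem VOL_opn_diag (x y : Fin N → ℝ) (δ : ℝ) (hδ : 0 ≤ δ) (h : ∀ i, |x i - y i| ≤ δ) :
    opn (Matrix.diagonal (fun i => (x i : ℂ)) - Matrix.diagonal (fun i => (y i : ℂ)) : Mt N) ≤
      δ := by
  open scoped Matrix.Norms.L2Operator in
  have h1 : ‖(Matrix.diagonal (fun i => (x i : ℂ)) - Matrix.diagonal (fun i => (y i : ℂ)) :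
      Mt N)‖ ≤ δ := by
    rw [Matrix.diagonal_sub, Matrix.l2_opNorm_diagonal, pi_norm_le_iff_of_nonneg hδ]
    intro i
    rw [← Complex.ofReal_sub, Complex.norm_real]
    exact h i
  exact h1

/-- the norm -/
def VOL_h (X : Mt N) : ℝ := √(hs2 X)

theorem VOL_h_le {X : Mt N} {r : ℝ} (h : hs2 X ≤ r ^ 2) (hr : 0 ≤ r) : VOL_h X ≤ r := by
  unfold VOL_h
  exact (Real.sqrt_le_left hr).mpr h

theorem VOL_le_of_h {X : Mt N} {r : ℝ} (h : VOL_h X ≤ r) : hs2 X ≤ r ^ 2 := by
  unfold VOL_h at h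
  have h0 := hs2_nonneg X
  have h1 : 0 ≤ √(hs2 X) := Real.sqrt_nonneg _
  calc hs2 X = √(hs2 X) ^ 2 := (Real.sq_sqrt h0).symm
    _ ≤ r ^ 2 := by nlinarith

theorem VOL_h_conj (W : UN N) (X : Mt N) :
    VOL_h ((W : Mt N) * X * star (W : Mt N)) = VOL_h X := by
  unfold VOL_h
  have h := hs2_mul_unitary (star W) ((W : Mt N) * X)
  rw [Unitary.coe_star] at h
  rw [h, hs2_unitary_mul]

theorem VOL_h_conj' (W : UN N) (X : Mt N) :
    VOL_h (star (W : Mt N) * X * (W : Mt N)) = VOL_h X := by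
  unfold VOL_h
  have h := hs2_unitary_mul (star W) X
  rw [Unitary.coe_star] at h
  rw [hs2_mul_unitary, h]

/-- two tuples with the same label recover almost the same unitary -/
theorem VOL_pair {k : ℕ} (A A' : Fin (k + 1) → Mt N) (hA : A ∈ HC N k) (hA' : A' ∈ HC N k)
    (P : NP (k + 1)) (ρ δ δ' R : ℝ) (hρ : 0 < ρ) (hδ : 0 < δ) (hδ' : 0 < δ') (hR : ρ ≤ R)
    (hmod : Modu P δ ρ)
    (hmod' : ∀ A ∈ HC N k, ∀ B ∈ HC N k, (∀ i, i ≠ 0 → A i = B i) →
      opn (A 0 - B 0) ≤ δ' → opn (evA A P - evA B P) ≤ ρ)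
    (W W' : UN N) (d d' : Fin N → ℝ)
    (hd : star (W : Mt N) * A 0 * (W : Mt N) = Matrix.diagonal (fun i => (d i : ℂ)))
    (hd' : star (W' : Mt N) * A' 0 * (W' : Mt N) = Matrix.diagonal (fun i => (d' i : ℂ)))
    (hdd : ∀ i, |d i - d' i| ≤ δ')
    (hBB : ∀ i : Fin k, hs2 (star (W : Mt N) * A i.succ * (W : Mt N) -
      star (W' : Mt N) * A' i.succ * (W' : Mt N)) ≤ δ ^ 2)
    (hWW : hs2 ((W : Mt N) - (W' : Mt N)) ≤ R ^ 2)
    (V V' : UN N) (hV : hs2 ((V : Mt N) - evA A P) ≤ R ^ 2)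
    (hV' : hs2 ((V' : Mt N) - evA A' P) ≤ R ^ 2) :
    hs2 ((V : Mt N) - (V' : Mt N)) ≤ (6 * R) ^ 2 := by
  have hR0 : 0 ≤ R := by linarith
  have tri : ∀ X Y : Mt N, VOL_h (X + Y) ≤ VOL_h X + VOL_h Y := fun X Y => sqrt_hs2_add X Y
  -- conjugated tuples
  set X : Fin (k + 1) → Mt N := fun i => star (W : Mt N) * A i * (W : Mt N) with hX
  set X' : Fin (k + 1) → Mt N := fun i => star (W' : Mt N) * A' i * (W' : Mt N) with hX'
  have conjHC : ∀ (U : UN N) (Z : Fin (k + 1) → Mt N), Z ∈ HC N k →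
      (fun i => star (U : Mt N) * Z i * (U : Mt N)) ∈ HC N k := by
    intro U Z hZ i
    refine ⟨?_, ?_⟩
    · have h1 : (Z i)ᴴ = Z i := (hZ i).1
      show (star (U : Mt N) * Z i * (U : Mt N))ᴴ = star (U : Mt N) * Z i * (U : Mt N)
      rw [Matrix.conjTranspose_mul, Matrix.conjTranspose_mul, h1, Matrix.star_eq_conjTranspose,
        Matrix.conjTranspose_conjTranspose, mul_assoc]
    · have e1 : opn (U : Mt N) ≤ 1 := opn_unitary U
      have e2 : opn (star (U : Mt N)) ≤ 1 := by rw [opn_star]; exact e1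
      have e3 := opn_mul (star (U : Mt N)) (Z i)
      have e7 : opn (star (U : Mt N) * Z i) ≤ 1 :=
        le_trans e3 (mul_le_one₀ e2 (opn_nonneg _) (hZ i).2)
      exact le_trans (opn_mul _ _) (mul_le_one₀ e7 (opn_nonneg _) e1)
  have hXm : X ∈ HC N k := conjHC W A hA
  have hXm' : X' ∈ HC N k := conjHC W' A' hA'
  have hAX : (fun i => (W : Mt N) * X i * star (W : Mt N)) = A := by
    funext i
    simp only [hX]
    calc (W : Mt N) * (star (W : Mt N) * A i * (W : Mt N)) * star (W : Mt N)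
        = ((W : Mt N) * star (W : Mt N)) * A i * ((W : Mt N) * star (W : Mt N)) := by
          simp only [mul_assoc]
      _ = A i := by rw [VOL_mul_star, one_mul, mul_one]
  have hAX' : (fun i => (W' : Mt N) * X' i * star (W' : Mt N)) = A' := by
    funext i
    simp only [hX']
    calc (W' : Mt N) * (star (W' : Mt N) * A' i * (W' : Mt N)) * star (W' : Mt N)
        = ((W' : Mt N) * star (W' : Mt N)) * A' i * ((W' : Mt N) * star (W' : Mt N)) := by
          simp only [mul_assoc]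
      _ = A' i := by rw [VOL_mul_star, one_mul, mul_one]
  have hev : evA A P = (W : Mt N) * evA X P * star (W : Mt N) := by
    rw [← VOL_conj_ev, hAX]
  have hev' : evA A' P = (W' : Mt N) * evA X' P * star (W' : Mt N) := by
    rw [← VOL_conj_ev, hAX']
  -- intermediate tuple
  set Y : Fin (k + 1) → Mt N := Fin.cons (X' 0) (fun i : Fin k => X i.succ) with hY
  have hYm : Y ∈ HC N k := by
    intro i
    refine Fin.cases ?_ (fun j => ?_) i
    · simpa [hY] using hXm' 0
    · simpa [hY] using hXm j.succ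
  have hXY : opn (evA X P - evA Y P) ≤ ρ := by
    refine hmod' X hXm Y hYm ?_ ?_
    · intro i hi
      obtain ⟨j, rfl⟩ := Fin.exists_succ_eq.mpr hi
      simp [hY]
    · have e : X 0 - Y 0 = Matrix.diagonal (fun i => (d i : ℂ)) -
          Matrix.diagonal (fun i => (d' i : ℂ)) := by
        have : Y 0 = X' 0 := by simp [hY]
        rw [this]
        simp only [hX, hX']
        rw [hd, hd']
      rw [e]
      exact VOL_opn_diag d d' δ' hδ'.le hdd
  have hYX' : hs2 (evA Y P - evA X' P) ≤ ρ ^ 2 := by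
    refine hmod N Y hYm X' hXm' (by simp [hY]) ?_
    intro i
    refine Fin.cases ?_ (fun j => ?_) i
    · have : Y 0 - X' 0 = 0 := by simp [hY]
      rw [this, hs2_zero]
      positivity
    · have : Y j.succ = X j.succ := by simp [hY]
      rw [this]
      exact hBB j
  have k1 : VOL_h (evA X P - evA Y P) ≤ ρ := by
    refine VOL_h_le (le_trans (hs2_le_opn _) ?_) hρ.le
    have := opn_nonneg (evA X P - evA Y P)
    nlinarith
  have k2 : VOL_h (evA Y P - evA X' P) ≤ ρ := VOL_h_le hYX' hρ.le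
  have k3 : VOL_h (evA X P - evA X' P) ≤ 2 * ρ := by
    have : evA X P - evA X' P = (evA X P - evA Y P) + (evA Y P - evA X' P) := by abel
    rw [this]
    linarith [tri (evA X P - evA Y P) (evA Y P - evA X' P)]
  -- the unitary in the second frame
  set Rj : Mt N := star (W' : Mt N) * (V' : Mt N) * (W' : Mt N) with hRj
  have hRj' : (W' : Mt N) * Rj * star (W' : Mt N) = (V' : Mt N) := by
    rw [hRj]
    calc (W' : Mt N) * (star (W' : Mt N) * (V' : Mt N) * (W' : Mt N)) * star (W' : Mt N)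
        = ((W' : Mt N) * star (W' : Mt N)) * (V' : Mt N) * ((W' : Mt N) * star (W' : Mt N)) := by
          simp only [mul_assoc]
      _ = (V' : Mt N) := by rw [VOL_mul_star, one_mul, mul_one]
  have hRju : Rj = ((star W' * V' * W' : UN N) : Mt N) := by
    rw [hRj]
    simp
  have k4 : VOL_h (evA X' P - Rj) ≤ R := by
    have e : (W' : Mt N) * (Rj - evA X' P) * star (W' : Mt N) = (V' : Mt N) - evA A' P := by
      rw [mul_sub, sub_mul, hRj', hev']
    have e2 : VOL_h (Rj - evA X' P) ≤ R := by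
      rw [← VOL_h_conj W', e]
      exact VOL_h_le hV' hR0
    have e3 : VOL_h (evA X' P - Rj) = VOL_h (Rj - evA X' P) := by
      unfold VOL_h
      have : evA X' P - Rj = (-1 : ℂ) • (Rj - evA X' P) := by simp
      rw [this, hs2_smul]
      simp
    rw [e3]
    exact e2
  have k5 : VOL_h ((V : Mt N) - (W : Mt N) * evA X P * star (W : Mt N)) ≤ R := by
    rw [← hev]
    exact VOL_h_le hV hR0
  have k6 : VOL_h ((W : Mt N) * evA X P * star (W : Mt N) - (W : Mt N) * Rj * star (W : Mt N)) ≤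
      2 * ρ + R := by
    have e : (W : Mt N) * evA X P * star (W : Mt N) - (W : Mt N) * Rj * star (W : Mt N) =
        (W : Mt N) * ((evA X P - evA X' P) + (evA X' P - Rj)) * star (W : Mt N) := by
      rw [← sub_mul, ← mul_sub]
      congr 2
      abel
    rw [e, VOL_h_conj]
    linarith [tri (evA X P - evA X' P) (evA X' P - Rj)]
  have k7 : VOL_h ((W : Mt N) * Rj * star (W : Mt N) - (V' : Mt N)) ≤ 2 * R := by
    have e : (W : Mt N) * Rj * star (W : Mt N) - (V' : Mt N) =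
        ((W : Mt N) - (W' : Mt N)) * Rj * star (W : Mt N) +
          (W' : Mt N) * Rj * star ((W : Mt N) - (W' : Mt N)) := by
      nth_rewrite 1 [← hRj']
      rw [star_sub]
      noncomm_ring
    have e1 : VOL_h (((W : Mt N) - (W' : Mt N)) * Rj * star (W : Mt N)) ≤ R := by
      unfold VOL_h
      have h1 := hs2_mul_unitary (star W) (((W : Mt N) - (W' : Mt N)) * Rj)
      rw [Unitary.coe_star] at h1
      rw [h1, hRju, hs2_mul_unitary]
      exact VOL_h_le hWW hR0
    have e2 : VOL_h ((W' : Mt N) * Rj * star ((W : Mt N) - (W' : Mt N))) ≤ R := by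
      unfold VOL_h
      rw [mul_assoc, hs2_unitary_mul, hRju, hs2_unitary_mul, hs2_star]
      exact VOL_h_le hWW hR0
    rw [e]
    linarith [tri (((W : Mt N) - (W' : Mt N)) * Rj * star (W : Mt N))
      ((W' : Mt N) * Rj * star ((W : Mt N) - (W' : Mt N)))]
  have k8 : VOL_h ((V : Mt N) - (V' : Mt N)) ≤ 6 * R := by
    have e : (V : Mt N) - (V' : Mt N) =
        ((V : Mt N) - (W : Mt N) * evA X P * star (W : Mt N)) +
        (((W : Mt N) * evA X P * star (W : Mt N) - (W : Mt N) * Rj * star (W : Mt N)) +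
        ((W : Mt N) * Rj * star (W : Mt N) - (V' : Mt N))) := by abel
    rw [e]
    have t1 := tri ((V : Mt N) - (W : Mt N) * evA X P * star (W : Mt N))
      (((W : Mt N) * evA X P * star (W : Mt N) - (W : Mt N) * Rj * star (W : Mt N)) +
        ((W : Mt N) * Rj * star (W : Mt N) - (V' : Mt N)))
    have t2 := tri ((W : Mt N) * evA X P * star (W : Mt N) - (W : Mt N) * Rj * star (W : Mt N))
      ((W : Mt N) * Rj * star (W : Mt N) - (V' : Mt N))
    linarith
  exact VOL_le_of_h k8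

/-- Haar measure of a product of balls -/
theorem VOL_ball {m M : ℕ} (e : Fin m → Fin M) (he : Function.Injective e)
    (s : Fin m → Set (UN N)) (B : ℝ) (hB : ∀ j, (mu N).real (s j) ≤ B) :
    (PP (Fin M) N).real {V | ∀ j, V (e j) ∈ s j} ≤ B ^ m := by
  classical
  set t : Fin M → Set (UN N) := fun i => {U | ∀ j, e j = i → U ∈ s j} with ht
  have hset : {V : Fin M → UN N | ∀ j, V (e j) ∈ s j} = Set.pi Set.univ t := by
    ext V
    constructor
    · intro h i _ j hj
      rw [← hj]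
      exact h j
    · intro h j
      exact h (e j) (Set.mem_univ _) j rfl
  have hte : ∀ j, t (e j) = s j := by
    intro j
    ext U
    constructor
    · intro h
      exact h j rfl
    · intro h j' hj'
      rw [he hj']
      exact h
  have htn : ∀ i, i ∉ Finset.univ.image e → t i = Set.univ := by
    intro i hi
    ext U
    refine ⟨fun _ => Set.mem_univ _, fun _ j hj => ?_⟩
    exact absurd (Finset.mem_image.mpr ⟨j, Finset.mem_univ _, hj⟩) hi
  rw [hset, Measure.real, Measure.pi_pi, ENNReal.toReal_prod]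
  have h1 : ∏ i, (mu N (t i)).toReal = ∏ i ∈ Finset.univ.image e, (mu N (t i)).toReal := by
    symm
    refine Finset.prod_subset (Finset.subset_univ _) ?_
    intro i _ hi
    rw [htn i hi]
    simp
  rw [h1, Finset.prod_image (fun a _ b _ h => he h)]
  calc ∏ j, (mu N (t (e j))).toReal ≤ ∏ _j : Fin m, B := by
        refine Finset.prod_le_prod (fun j _ => ENNReal.toReal_nonneg) (fun j _ => ?_)
        rw [hte j]
        exact hB j
    _ = B ^ m := by simp

end VOL

theorem vol_ineq {k m M N : ℕ} (hN : 0 < N) (e : Fin m → Fin M) (he : Function.Injective e)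
    (A : (Fin M → UN N) → Fin (k + 1) → Mt N) (hA : ∀ V, A V ∈ HC N k)
    (P : Fin m → NP (k + 1)) (ρ δ δ' R : ℝ) (hρ : 0 < ρ) (hδ : 0 < δ) (hδ' : 0 < δ') (hR : ρ ≤ R)
    (hmod : ∀ j, Modu (P j) δ ρ)
    (hmod' : ∀ j, ∀ A ∈ HC N k, ∀ B ∈ HC N k, (∀ i, i ≠ 0 → A i = B i) →
      opn (A 0 - B 0) ≤ δ' → opn (evA A (P j) - evA B (P j)) ≤ ρ)
    (hcl : (1 / 2 : ℝ) ≤ (PP (Fin M) N).real
      {V | ∀ j, hs2 ((V (e j) : Mt N) - evA (A V) (P j)) ≤ R ^ 2})
    (KD KH KW : ℕ) (cD : (Fin N → ℝ) → Fin KD) (cH : Mt N → Fin KH) (cW : UN N → Fin KW)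
    (hcD : ∀ d d' : Fin N → ℝ, (∀ i, |d i| ≤ 1) → (∀ i, |d' i| ≤ 1) → cD d = cD d' →
        ∀ i, |d i - d' i| ≤ δ')
    (hcH : ∀ A B : Mt N, A.IsHermitian → B.IsHermitian → opn A ≤ 1 → opn B ≤ 1 → cH A = cH B →
        hs2 (A - B) ≤ δ ^ 2)
    (hcW : ∀ U U' : UN N, cW U = cW U' → hs2 ((U : Mt N) - (U' : Mt N)) ≤ R ^ 2)
    (B : ℝ) (hB : ∀ X : Mt N, (mu N).real {U | hs2 ((U : Mt N) - X) ≤ (6 * R) ^ 2} ≤ B) :
    (1 / 2 : ℝ) ≤ (KD : ℝ) * (KH : ℝ) ^ k * (KW : ℝ) * B ^ m := by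
  classical
  choose W d hd1 hd2 using fun V => VOL_spectral (A V 0) (hA V 0).1 (hA V 0).2
  set lab : (Fin M → UN N) → (Fin KD × (Fin k → Fin KH)) × Fin KW := fun V =>
    ((cD (d V), fun i => cH (star (W V : Mt N) * A V i.succ * (W V : Mt N))), cW (W V)) with hlab
  set S : Set (Fin M → UN N) :=
    {V | ∀ j, hs2 ((V (e j) : Mt N) - evA (A V) (P j)) ≤ R ^ 2} with hS
  have conjH : ∀ (U : UN N) (Z : Mt N), Z.IsHermitian → opn Z ≤ 1 →
      (star (U : Mt N) * Z * (U : Mt N)).IsHermitian ∧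
        opn (star (U : Mt N) * Z * (U : Mt N)) ≤ 1 := by
    intro U Z hZ hZ1
    refine ⟨?_, ?_⟩
    · have h1 : Zᴴ = Z := hZ
      show (star (U : Mt N) * Z * (U : Mt N))ᴴ = star (U : Mt N) * Z * (U : Mt N)
      rw [Matrix.conjTranspose_mul, Matrix.conjTranspose_mul, h1, Matrix.star_eq_conjTranspose,
        Matrix.conjTranspose_conjTranspose, mul_assoc]
    · have e1 : opn (U : Mt N) ≤ 1 := opn_unitary U
      have e2 : opn (star (U : Mt N)) ≤ 1 := by rw [opn_star]; exact e1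
      have e3 := opn_mul (star (U : Mt N)) Z
      have e7 : opn (star (U : Mt N) * Z) ≤ 1 :=
        le_trans e3 (mul_le_one₀ e2 (opn_nonneg _) hZ1)
      exact le_trans (opn_mul _ _) (mul_le_one₀ e7 (opn_nonneg _) e1)
  -- points with the same label are close
  have key : ∀ V ∈ S, ∀ V' ∈ S, lab V = lab V' →
      ∀ j, hs2 ((V (e j) : Mt N) - (V' (e j) : Mt N)) ≤ (6 * R) ^ 2 := by
    intro V hV V' hV' hl j
    simp only [hlab, Prod.mk.injEq] at hl
    obtain ⟨⟨hl1, hl2⟩, hl3⟩ := hl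
    refine VOL_pair (A V) (A V') (hA V) (hA V') (P j) ρ δ δ' R hρ hδ hδ' hR (hmod j) (hmod' j)
      (W V) (W V') (d V) (d V') (hd2 V) (hd2 V') (hcD _ _ (hd1 V) (hd1 V') hl1) ?_
      (hcW _ _ hl3) (V (e j)) (V' (e j)) (hV j) (hV' j)
    intro i
    have h1 := conjH (W V) (A V i.succ) (hA V i.succ).1 (hA V i.succ).2
    have h2 := conjH (W V') (A V' i.succ) (hA V' i.succ).1 (hA V' i.succ).2
    exact hcH _ _ h1.1 h2.1 h1.2 h2.2 (congrFun hl2 i)
  -- covering sets
  have hcov : ∀ l : (Fin KD × (Fin k → Fin KH)) × Fin KW, ∃ T : Set (Fin M → UN N),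
      {V | V ∈ S ∧ lab V = l} ⊆ T ∧ (PP (Fin M) N).real T ≤ B ^ m := by
    intro l
    by_cases hne : ∃ V₀, V₀ ∈ S ∧ lab V₀ = l
    · obtain ⟨V₀, hV₀, hl₀⟩ := hne
      refine ⟨{V | ∀ j, V (e j) ∈ {U : UN N | hs2 ((U : Mt N) - (V₀ (e j) : Mt N)) ≤
        (6 * R) ^ 2}}, ?_, ?_⟩
      · rintro V ⟨hV, hl⟩ j
        exact key V hV V₀ hV₀ (hl.trans hl₀.symm) j
      · exact VOL_ball e he _ B (fun j => hB _)
    · refine ⟨∅, ?_, ?_⟩
      · rintro V ⟨hV, hl⟩
        exact absurd ⟨V, hV, hl⟩ hne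
      · simp only [measureReal_empty]
        have hB0 : 0 ≤ B := le_trans measureReal_nonneg (hB 0)
        positivity
  choose T hT1 hT2 using hcov
  have hSsub : S ⊆ ⋃ l, T l := by
    intro V hV
    exact Set.mem_iUnion.mpr ⟨lab V, hT1 (lab V) ⟨hV, rfl⟩⟩
  calc (1 / 2 : ℝ) ≤ (PP (Fin M) N).real S := hcl
    _ ≤ (PP (Fin M) N).real (⋃ l, T l) := measureReal_mono hSsub
    _ ≤ ∑ l, (PP (Fin M) N).real (T l) := measureReal_iUnion_fintype_le _
    _ ≤ ∑ _l : (Fin KD × (Fin k → Fin KH)) × Fin KW, B ^ m :=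
        Finset.sum_le_sum (fun l _ => hT2 l)
    _ = (KD : ℝ) * (KH : ℝ) ^ k * (KW : ℝ) * B ^ m := by
        simp [Finset.card_univ, Fintype.card_prod]

end Pool.Agent.H710R2.GP
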