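import Mathlib
import Pool.Agent.H710R2.FF.Defs2
import Pool.Agent.H710R2.FF.Rc
import Pool.Agent.H710R2.GP.Defs
import Pool.Agent.H710R2.GP.Lim
import Pool.Agent.H710R2.GP.GEN

set_option autoImplicit false
set_option linter.unusedSectionVars false

open scoped ComplexConjugate InnerProductSpace

noncomputable section

namespace Pool.Agent.H710R2.GP

open Pool.Agent.H710R2.FF
open Pool.Agent.Helper278 Pool.Agent.Helper436.SN

theorem mem_cent {A B : Type} [Mul A] [Mul B] (φ : A ≃* B) (S : Set A) (T : Set B)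
    (hT : φ '' S = T) (x : A) : φ x ∈ Set.centralizer T ↔ x ∈ Set.centralizer S := by
  subst hT
  simp only [Set.mem_centralizer_iff]
  constructor
  · intro h m hm
    apply φ.injective
    rw [map_mul, map_mul]
    exact h (φ m) ⟨m, hm, rfl⟩
  · rintro h _ ⟨m, hm, rfl⟩
    rw [← map_mul, ← map_mul, h m hm]

theorem image_cent {A B : Type} [Mul A] [Mul B] (φ : A ≃* B) (S : Set A) (T : Set B)
    (hT : φ '' S = T) : φ '' (Set.centralizer S) = Set.centralizer T := by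
  ext y
  constructor
  · rintro ⟨x, hx, rfl⟩
    exact (mem_cent φ S T hT x).2 hx
  · intro hy
    refine ⟨φ.symm y, ?_, φ.apply_symm_apply y⟩
    rw [← mem_cent φ S T hT, φ.apply_symm_apply]
    exact hy

theorem LG_coe (G : Type) [Group G] :
    ((LG G : VonNeumannAlgebra (EllTwo G)) : Set (EllTwo G →L[ℂ] EllTwo G))
      = Set.centralizer (Set.centralizer (Set.range (leftReg G))) := by
  show ((StarSubalgebra.centralizer ℂ
    (StarSubalgebra.centralizer ℂ (Set.range (leftReg G)) : Set (EllTwo G →L[ℂ] EllTwo G)) :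
      StarSubalgebra ℂ (EllTwo G →L[ℂ] EllTwo G)) : Set (EllTwo G →L[ℂ] EllTwo G)) = _
  rw [StarSubalgebra.coe_centralizer_centralizer]
  congr 2
  rw [Set.union_eq_left]
  intro x hx
  obtain ⟨g, hg⟩ : star x ∈ Set.range (leftReg G) := hx
  refine ⟨g⁻¹, ?_⟩
  rw [← star_leftReg, hg, star_star]

section

variable {G H : Type} [Group G] [NormedAddCommGroup H] [InnerProductSpace ℂ H] [CompleteSpace H]

theorem leftReg_dl2 [DecidableEq G] (g h : G) :
    leftReg G g (lp.single 2 h (1 : ℂ) : EllTwo G) = (lp.single 2 (g * h) (1 : ℂ) : EllTwo G) := by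
  ext k
  show (lp.single 2 h (1 : ℂ) : EllTwo G) (g⁻¹ * k) = (lp.single 2 (g * h) (1 : ℂ) : EllTwo G) k
  rw [lp.single_apply, lp.single_apply, Pi.single_apply, Pi.single_apply]
  by_cases hk : g⁻¹ * k = h
  · rw [if_pos hk, if_pos]
    rw [← hk, mul_inv_cancel_left]
  · rw [if_neg hk, if_neg]
    intro h2
    apply hk
    rw [h2, inv_mul_cancel_left]

theorem phi_lam (δ : HilbertBasis G ℂ H) (L : G → H →L[ℂ] H) (hL : ∀ g h, L g (δ h) = δ (g * h))
    (g : G) : δ.repr.conjStarAlgEquiv (L g) = leftReg G g := by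
  classical
  have h1 : L g = δ.repr.conjStarAlgEquiv.symm (leftReg G g) := by
    refine ContinuousLinearMap.ext_on (s := Set.range δ) ?_ ?_
    · have := δ.dense_span
      rw [Submodule.dense_iff_topologicalClosure_eq_top]
      exact this
    · rintro _ ⟨h, rfl⟩
      rw [hL, LinearIsometryEquiv.symm_conjStarAlgEquiv_apply_apply]
      have e1 : δ.repr (δ h) = (lp.single 2 h (1 : ℂ) : EllTwo G) := δ.repr_self h
      have e2 : δ.repr (δ (g * h)) = (lp.single 2 (g * h) (1 : ℂ) : EllTwo G) :=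
        δ.repr_self (g * h)
      rw [e1, leftReg_dl2, ← e2, LinearIsometryEquiv.symm_apply_apply]
  rw [h1]
  exact δ.repr.conjStarAlgEquiv.apply_symm_apply _

/-- the multiplicative equivalence underlying `conjStarAlgEquiv` -/
def phiM (δ : HilbertBasis G ℂ H) : (H →L[ℂ] H) ≃* (EllTwo G →L[ℂ] EllTwo G) :=
  { toFun := δ.repr.conjStarAlgEquiv
    invFun := δ.repr.conjStarAlgEquiv.symm
    left_inv := δ.repr.conjStarAlgEquiv.symm_apply_apply
    right_inv := δ.repr.conjStarAlgEquiv.apply_symm_apply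
    map_mul' := fun x y => map_mul δ.repr.conjStarAlgEquiv x y }

theorem image_range (δ : HilbertBasis G ℂ H) {κ : Type} (L : κ → H →L[ℂ] H)
    (L' : κ → EllTwo G →L[ℂ] EllTwo G) (h : ∀ k, δ.repr.conjStarAlgEquiv (L k) = L' k) :
    (phiM δ) '' (Set.range L) = Set.range L' := by
  ext y
  constructor
  · rintro ⟨_, ⟨k, rfl⟩, rfl⟩
    exact ⟨k, (h k).symm⟩
  · rintro ⟨k, rfl⟩
    exact ⟨L k, ⟨k, rfl⟩, h k⟩

theorem mem_LG_iff (δ : HilbertBasis G ℂ H) (L : G → H →L[ℂ] H)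
    (hL : ∀ g h, L g (δ h) = δ (g * h)) (x : H →L[ℂ] H) :
    δ.repr.conjStarAlgEquiv x ∈ LG G ↔ x ∈ Set.centralizer (Set.centralizer (Set.range L)) := by
  have h0 := image_range δ L (leftReg G) (phi_lam δ L hL)
  have h1 := image_cent (phiM δ) _ _ h0
  have h2 := mem_cent (phiM δ) _ _ h1 x
  rw [← h2]
  have h3 : δ.repr.conjStarAlgEquiv x ∈ LG G ↔ δ.repr.conjStarAlgEquiv x ∈
    ((LG G : VonNeumannAlgebra (EllTwo G)) : Set (EllTwo G →L[ℂ] EllTwo G)) := Iff.rfl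
  rw [h3, LG_coe]
  rfl

theorem n2_phi (δ : HilbertBasis G ℂ H) (y : H →L[ℂ] H) :
    FF.n2 (δ.repr.conjStarAlgEquiv y) = ‖y (δ 1)‖ := by
  classical
  unfold FF.n2
  have e1 : δ.repr (δ 1) = (dirac G : EllTwo G) := by
    unfold dirac
    exact δ.repr_self 1
  rw [← e1, LinearIsometryEquiv.conjStarAlgEquiv_apply_apply]
  rw [LinearIsometryEquiv.symm_apply_apply, LinearIsometryEquiv.norm_map]

theorem evA_phi (δ : HilbertBasis G ℂ H) {n : ℕ} (a : Fin n → H →L[ℂ] H) (P : NP n) :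
    δ.repr.conjStarAlgEquiv (evA a P) = evA (fun i => δ.repr.conjStarAlgEquiv (a i)) P := by
  have : (δ.repr.conjStarAlgEquiv.toAlgEquiv.toAlgHom.comp (evA a)) =
      evA (fun i => δ.repr.conjStarAlgEquiv (a i)) := by
    apply FreeAlgebra.hom_ext
    funext i
    show δ.repr.conjStarAlgEquiv (evA a (FreeAlgebra.ι ℂ i)) =
      evA (fun i => δ.repr.conjStarAlgEquiv (a i)) (FreeAlgebra.ι ℂ i)
    unfold evA
    rw [FreeAlgebra.lift_ι_apply, FreeAlgebra.lift_ι_apply]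
  exact congrArg (fun f => f P) this

theorem norm_phi (δ : HilbertBasis G ℂ H) (x : H →L[ℂ] H) :
    ‖δ.repr.conjStarAlgEquiv x‖ = ‖x‖ := by
  exact NonUnitalStarAlgHom.norm_map (F := (H →L[ℂ] H) ≃⋆ₐ[ℂ] (EllTwo G →L[ℂ] EllTwo G))
    δ.repr.conjStarAlgEquiv δ.repr.conjStarAlgEquiv.injective x

end

theorem main_abs (k m : ℕ) : ∃ c : ℝ, 0 < c ∧ ∀ (ι H : Type) [NormedAddCommGroup H]
    [InnerProductSpace ℂ H] [CompleteSpace H] (δ : HilbertBasis (FreeGroup ι) ℂ H)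
    (lam : FreeGroup ι → H →L[ℂ] H) (_ : ∀ g h, lam g (δ h) = δ (g * h))
    (e : Fin m → ι) (_ : Function.Injective e) (a : Fin (k + 1) → H →L[ℂ] H),
    (∀ i, a i ∈ Set.centralizer (Set.centralizer (Set.range lam))) →
    (∀ i, IsSelfAdjoint (a i)) → (∀ i, ‖a i‖ ≤ 1) →
    ∀ (P : Fin m → NP (k + 1)) (ρ η : ℝ), 0 < ρ → 0 < η → η ≤ 1 →
    (∀ j, ‖(lam (FreeGroup.of (e j)) - evA a (P j)) (δ 1)‖ ≤ ρ) →
    (∀ j, Modu (P j) η ρ) → c * η ^ k ≤ ρ ^ (m - 1) := by
  obtain ⟨c, hc, hmain⟩ := main_G k m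
  refine ⟨c, hc, ?_⟩
  intro ι H _ _ _ δ lam hlam e he a ha hs hn P ρ η hρ hη hη1 hP hM
  refine hmain ι e he (fun i => δ.repr.conjStarAlgEquiv (a i))
    (fun i => (mem_LG_iff δ lam hlam (a i)).2 (ha i)) (fun i => (hs i).map _)
    (fun i => by rw [norm_phi]; exact hn i) P ρ η hρ hη hη1 (fun j => ?_) hM
  rw [← phi_lam δ lam hlam, ← evA_phi, ← map_sub, n2_phi]
  exact hP j

theorem gen_abs {G H : Type} [Group G] [NormedAddCommGroup H] [InnerProductSpace ℂ H]
    [CompleteSpace H] (δ : HilbertBasis G ℂ H) {n : ℕ} (a : Fin n → H →L[ℂ] H)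
    (hs : ∀ i, IsSelfAdjoint (a i)) (v : H →L[ℂ] H)
    (hv : v ∈ Set.centralizer (Set.centralizer (Set.range a)))
    (ρ : ℝ) (hρ : 0 < ρ) : ∃ P : NP n, ‖(v - evA a P) (δ 1)‖ ≤ ρ := by
  obtain ⟨P, hP⟩ := gen_approx (fun i => δ.repr.conjStarAlgEquiv (a i)) (fun i => (hs i).map _)
    (δ.repr.conjStarAlgEquiv v) (by
      intro x hx
      obtain ⟨y, hy⟩ : ∃ y, δ.repr.conjStarAlgEquiv y = x :=
        ⟨δ.repr.conjStarAlgEquiv.symm x, δ.repr.conjStarAlgEquiv.apply_symm_apply x⟩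
      subst hy
      rw [← map_mul, ← map_mul]
      congr 1
      refine Set.mem_centralizer_iff.mp hv y ?_
      rw [Set.mem_centralizer_iff]
      rintro _ ⟨i, rfl⟩
      have := hx i
      rw [← map_mul, ← map_mul] at this
      exact (δ.repr.conjStarAlgEquiv.injective this).symm) ρ hρ
  refine ⟨P, ?_⟩
  rw [← evA_phi, ← map_sub, n2_phi] at hP
  exact hP

end Pool.Agent.H710R2.GP
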